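import Mathlib

/-! Plane conics given by six coefficients. -/

namespace Pool.Agent.Lib.MP_651af7_nt.Qp

variable {R : Type} [Field R]

/-- The value of a conic. -/
def ev (w : Fin 6 → R) (m : Fin 3 → R) : R :=
  w 0 * m 0 ^ 2 + w 1 * m 1 ^ 2 + w 2 * m 2 ^ 2 + w 3 * (m 0 * m 1) + w 4 * (m 0 * m 2) +
    w 5 * (m 1 * m 2)

/-- The polar form. -/
def pol (w : Fin 6 → R) (u v : Fin 3 → R) : R :=
  2 * w 0 * (u 0 * v 0) + 2 * w 1 * (u 1 * v 1) + 2 * w 2 * (u 2 * v 2) +
    w 3 * (u 0 * v 1 + u 1 * v 0) + w 4 * (u 0 * v 2 + u 2 * v 0) + w 5 * (u 1 * v 2 + u 2 * v 1)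

/-- A trilinear form whose diagonal is the discriminant. -/
def dd (a b c : Fin 6 → R) : R :=
  4 * (a 0 * b 1 * c 2) + a 3 * b 4 * c 5 - a 0 * b 5 * c 5 - a 1 * b 4 * c 4 - a 2 * b 3 * c 3

/-- The determinant of three vectors. -/
def bk (a b c : Fin 3 → R) : R :=
  a 0 * (b 1 * c 2 - b 2 * c 1) + a 1 * (b 2 * c 0 - b 0 * c 2) + a 2 * (b 0 * c 1 - b 1 * c 0)

/-- The cross product. -/
def cr (b c : Fin 3 → R) : Fin 3 → R :=
  ![b 1 * c 2 - b 2 * c 1, b 2 * c 0 - b 0 * c 2, b 0 * c 1 - b 1 * c 0]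

/-- The conic of a pair of lines. -/
def ww (x y : Fin 3 → R) : Fin 6 → R :=
  ![x 0 * y 0, x 1 * y 1, x 2 * y 2, x 0 * y 1 + x 1 * y 0, x 0 * y 2 + x 2 * y 0,
    x 1 * y 2 + x 2 * y 1]

/-- The meeting point of two lines. -/
def mt (u v p r : Fin 3 → R) : Fin 3 → R := cr (cr u v) (cr p r)

theorem ev_ww (x y m : Fin 3 → R) : ev (ww x y) m =
    (m 0 * x 0 + m 1 * x 1 + m 2 * x 2) * (m 0 * y 0 + m 1 * y 1 + m 2 * y 2) := by
  simp only [ev, ww, Matrix.cons_val]
  ring

theorem dd_ww (x y : Fin 3 → R) : dd (ww x y) (ww x y) (ww x y) = 0 := by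
  simp only [dd, ww, Matrix.cons_val]
  ring

theorem ev_ext {w : Fin 6 → R} (h : ∀ m, ev w m = 0) : w = 0 := by
  have h0 := h ![1, 0, 0]
  have h1 := h ![0, 1, 0]
  have h2 := h ![0, 0, 1]
  have h3 := h ![1, 1, 0]
  have h4 := h ![1, 0, 1]
  have h5 := h ![0, 1, 1]
  simp only [ev, Matrix.cons_val] at h0 h1 h2 h3 h4 h5
  funext i
  fin_cases i
  · simpa using h0
  · simpa using h1
  · simpa using h2
  · change w 3 = 0
    linear_combination h3 - h0 - h1
  · change w 4 = 0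
    linear_combination h4 - h0 - h2
  · change w 5 = 0
    linear_combination h5 - h1 - h2

theorem three0 {w : Fin 6 → R} {u v p : Fin 3 → R} (hu : ev w u = 0) (hv : ev w v = 0)
    (hp : ev w p = 0) (hd : dd w w w = 0) : pol w u v = 0 ∨ pol w u p = 0 ∨ pol w v p = 0 := by
  have h : 4 * ev w u * ev w v * ev w p + pol w u v * (pol w u p * pol w v p) -
      ev w u * pol w v p ^ 2 - ev w v * pol w u p ^ 2 - ev w p * pol w u v ^ 2 =
      dd w w w * bk u v p ^ 2 := by
    simp only [ev, pol, dd, bk]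
    ring
  rw [hu, hv, hp, hd] at h
  have h1 : pol w u v * (pol w u p * pol w v p) = 0 := by linear_combination h
  simpa only [mul_eq_zero] using h1

theorem five {w : Fin 6 → R} {u v p q r : Fin 3 → R} (hu : ev w u = 0) (hv : ev w v = 0)
    (hp : ev w p = 0) (hq : ev w q = 0) (hr : ev w r = 0) (h : pol w u v = 0)
    (b1 : bk u v p ≠ 0) (b2 : bk u v q ≠ 0) (b3 : bk u v r ≠ 0) (b4 : bk p q r ≠ 0) : w = 0 := by
  have e : ∀ m, bk u v p ^ 2 * ev w m =
      bk u v m * (bk m v p * pol w u p + bk u m p * pol w v p) := fun m => by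
    have : bk u v p ^ 2 * ev w m = bk m v p ^ 2 * ev w u + bk u m p ^ 2 * ev w v +
        bk u v m ^ 2 * ev w p + bk m v p * bk u m p * pol w u v +
        bk u v m * (bk m v p * pol w u p + bk u m p * pol w v p) := by
      simp only [ev, pol, bk]
      ring
    rw [this, hu, hv, hp, h]
    ring
  have h1 := e q
  have h2 := e r
  rw [hq, mul_zero, eq_comm, mul_eq_zero, or_iff_right b2] at h1
  rw [hr, mul_zero, eq_comm, mul_eq_zero, or_iff_right b3] at h2
  have h3 : bk q v p * bk u r p - bk r v p * bk u q p = bk u v p * bk p q r := by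
    simp only [bk]
    ring
  have h4 : pol w u p = 0 := by
    refine (mul_eq_zero.1 ?_).resolve_left (mul_ne_zero b1 b4)
    rw [← h3]
    linear_combination bk u r p * h1 - bk u q p * h2
  have h5 : pol w v p = 0 := by
    refine (mul_eq_zero.1 ?_).resolve_left (mul_ne_zero b1 b4)
    rw [← h3]
    linear_combination bk q v p * h2 - bk r v p * h1
  refine ev_ext fun m => (mul_eq_zero.1 ?_).resolve_left (pow_ne_zero 2 b1)
  rw [e, h4, h5]
  ring

theorem ev_mt (w : Fin 6 → R) (u v p r : Fin 3 → R) : ev w (mt u v p r) =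
    bk u v r ^ 2 * ev w p + bk u v p ^ 2 * ev w r - bk u v r * bk u v p * pol w p r := by
  simp only [ev, pol, bk, mt, cr, Matrix.cons_val]
  ring

theorem ev_mt' (w : Fin 6 → R) (u v p r : Fin 3 → R) : ev w (mt u v p r) = ev w (mt p r u v) := by
  simp only [ev, mt, cr, Matrix.cons_val]
  ring

theorem two0 {w : Fin 6 → R} {u v p r a : Fin 3 → R} (hu : ev w u = 0) (hv : ev w v = 0)
    (hp : ev w p = 0) (hr : ev w r = 0) (ha : ev w a ≠ 0) (h : pol w u v = 0)
    (b1 : bk u v p ≠ 0) (b2 : bk u v r ≠ 0) (b3 : bk u v a ≠ 0) (b4 : bk p r a ≠ 0)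
    (z : Fin 6 → R) (hz : dd w w z + dd w z w + dd z w w = 0) : ev z (mt u v p r) = 0 := by
  let c := ev w a / (bk u v a * bk p r a)
  have hc : c ≠ 0 := div_ne_zero ha (mul_ne_zero b3 b4)
  have e : ∀ m, ev (w - c • ww (cr u v) (cr p r)) m = ev w m - c * (bk u v m * bk p r m) :=
    fun m => by
      simp only [ev, ww, cr, bk, Pi.sub_apply, Pi.smul_apply, smul_eq_mul, Matrix.cons_val]
      ring
  have h1 : w - c • ww (cr u v) (cr p r) = 0 := by
    refine five (u := u) (v := v) (p := p) (q := r) (r := a) ?_ ?_ ?_ ?_ ?_ ?_ b1 b2 b3 b4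
    · rw [e, hu]
      simp only [bk]
      ring
    · rw [e, hv]
      simp only [bk]
      ring
    · rw [e, hp]
      simp only [bk]
      ring
    · rw [e, hr]
      simp only [bk]
      ring
    · rw [e, div_mul_cancel₀ _ (mul_ne_zero b3 b4), sub_self]
    · rw [← h]
      simp only [pol, ww, cr, Pi.sub_apply, Pi.smul_apply, smul_eq_mul, Matrix.cons_val]
      ring
  rw [sub_eq_zero] at h1
  clear_value c
  subst h1
  refine (mul_eq_zero.1 ?_).resolve_left (pow_ne_zero 2 hc)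
  rw [mt]
  generalize cr u v = x at hz ⊢
  generalize cr p r = y at hz ⊢
  simp only [dd, ev, ww, cr, Pi.smul_apply, smul_eq_mul, Matrix.cons_val] at hz ⊢
  linear_combination -hz

end Pool.Agent.Lib.MP_651af7_nt.Qp
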