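import Pool.Agent.Lib.MP_651af7_nt.Qp.Val

/-! Pairs of generic points whose norms are independent units. -/

namespace Pool.Agent.Lib.MP_651af7_nt.Qp

open Finset

variable {ι Ω : Type} [Fintype ι] [Field Ω] [CharZero Ω] {n : ℕ}

/-- A monomial with a rational power is rational. -/
def Tors (N : ι → Ω) : Prop :=
  ∀ (a : ι → ℤ) (m : ℕ), ∑ i, a i = 0 → 0 < m → (∃ c : ℚ, mon N a ^ m = c) → ∃ c : ℚ, mon N a = c

/-- The lattice of relations of degree zero. -/
def rel (N : ι → Ω) (hN : ∀ i, N i ≠ 0) : AddSubgroup (ι → ℤ) where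
  carrier := {a | ∑ i, a i = 0 ∧ ∃ c : ℚ, mon N a = c}
  zero_mem' := ⟨by simp, 1, by simp [mon_zero]⟩
  add_mem' := by
    rintro a b ⟨h1, c, h2⟩ ⟨h3, d, h4⟩
    exact ⟨by simp [sum_add_distrib, h1, h3], c * d, by rw [mon_add hN, h2, h4, Rat.cast_mul]⟩
  neg_mem' := by
    rintro a ⟨h1, c, h2⟩
    exact ⟨by simp [h1], c⁻¹, by rw [mon_neg, h2, Rat.cast_inv]⟩

/-- The annihilator of a lattice. -/
def ann (H : AddSubgroup (ι → ℤ)) : Submodule ℚ (ι → ℚ) where
  carrier := {φ | ∀ a ∈ H, ∑ i, φ i * a i = 0}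
  zero_mem' := fun a _ => by simp
  add_mem' := fun h h' a ha => by simp [add_mul, sum_add_distrib, h a ha, h' a ha]
  smul_mem' := fun c φ h a ha => by simp [mul_assoc, ← mul_sum, h a ha]

theorem sum_single [DecidableEq ι] (φ : ι → ℚ) (i : ι) :
    ∑ k, φ k * ((Pi.single i 1 : ι → ℤ) k : ℤ) = φ i := by
  rw [sum_eq_single i (fun j _ h => by simp [h]) (by simp)]
  simp

theorem sum_sub [DecidableEq ι] (φ : ι → ℚ) (i j : ι) :
    ∑ k, φ k * ((Pi.single i 1 - Pi.single j 1 : ι → ℤ) k : ℤ) = φ i - φ j := by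
  simp only [Pi.sub_apply, Int.cast_sub, mul_sub, sum_sub_distrib, sum_single]

omit [Fintype ι] [CharZero Ω] in
theorem zpow_sum {t : Ω} (ht : t ≠ 0) (s : Finset ι) (a : ι → ℤ) :
    ∏ i ∈ s, t ^ a i = t ^ ∑ i ∈ s, a i := by
  classical
  induction s using Finset.induction_on with
  | empty => simp
  | insert i s h ih => rw [prod_insert h, sum_insert h, ih, zpow_add₀ ht]

variable {l : ι → Fin (n + 1) → ℚ} {x y : Fin (n + 1) → Ω}

omit [CharZero Ω] in
theorem lf_single (a : Fin (n + 1)) (x : Fin (n + 1) → Ω) : lf (Pi.single a 1) x = x a := by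
  rw [lf, sum_eq_single a (fun j _ h => by simp [h]) (by simp)]
  simp

theorem max_twice (hc : 2 * n + 2 ≤ Fintype.card ι) (hl : GP l)
    (hN : ∀ i, lf (l i) x * lf (l i) y ≠ 0) (hI : Ind fun i => lf (l i) x * lf (l i) y) :
    ∀ φ ∈ ann (rel _ hN), ∀ i, ∃ j ≠ i, φ i ≤ φ j := by
  classical
  intro φ hφ i
  by_contra h
  push Not at h
  obtain ⟨V, h1, -, h2⟩ := exists_val hN hI φ fun a h1 h2 => hφ a ⟨h1, h2⟩
  obtain ⟨j, hj, h3, h4⟩ := exists_good hl V.valuation h1 x y (univ.erase i) (by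
    rw [card_erase_of_mem (mem_univ i), card_univ]
    omega)
  have h5 := h2 (Pi.single j 1 - Pi.single i 1) (by simp)
    (by rw [sum_sub]; exact sub_neg.2 (h j (ne_of_mem_erase hj)))
  rw [mon_sub hN, map_div₀, div_lt_one₀ (zero_lt_iff.2 ((map_ne_zero _).2 (hN i))), map_mul,
    map_mul] at h5
  exact not_le.2 h5 (mul_le_mul' (val_lf _ h1 _ h3) (val_lf _ h1 _ h4))

theorem alg_small [Nonempty ι] (hG : ∀ V : ValuationSubring Ω, (∀ c : ℚ, V.valuation c ≤ 1) →
      ∀ y : Fin (n + 1) → Ω, ∃ j, (∀ a, V.valuation (x a) ≤ V.valuation (lf (l j) x)) ∧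
        ∀ a, V.valuation (y a) ≤ V.valuation (lf (l j) y))
    (hN : ∀ i, lf (l i) x * lf (l i) y ≠ 0) (B : Finset ι) (hB : B.card ≤ n)
    (h : ∀ φ ∈ ann (rel _ hN), (∀ b ∈ B, φ b = 0) → φ = 0) (x0 : Fin (n + 1) → Ω)
    (h0 : ∀ a, ∃ r, x0 a = lf r x) : ¬ AlgebraicIndependent ℚ x0 := by
  classical
  intro hx
  obtain ⟨b0⟩ := ‹Nonempty ι›
  obtain ⟨b1, hb1⟩ : ∃ b, b ∈ B := by
    by_contra hc
    have := h (fun _ => 1) (fun a ha => by
      simp only [one_mul]; exact_mod_cast ha.1)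
      fun b hb => (hc ⟨b, hb⟩).elim
    exact one_ne_zero (congrFun this b0)
  have ht : lf (l b1) y ≠ 0 := right_ne_zero_of_mul (hN b1)
  let y' : Fin (n + 1) → Ω := fun a => y a / lf (l b1) y
  have hy : ∀ i, lf (l i) y' = lf (l i) y / lf (l b1) y := fun i => by
    simp only [lf, y', sum_div, mul_div_assoc]
  let N : ι → Ω := fun i => lf (l i) x * lf (l i) y'
  have hN' : ∀ i, N i = lf (l i) x * lf (l i) y / lf (l b1) y := fun i => by
    simp only [N, hy, mul_div_assoc]
  have hN0 : ∀ i, N i ≠ 0 := fun i => by rw [hN']; exact div_ne_zero (hN i) ht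
  let R := Algebra.adjoin ℚ ((B.image N : Finset Ω) : Set Ω)
  let H : AddSubgroup (ι → ℤ) :=
    { carrier := {a | IsAlgebraic R (mon N a)}
      zero_mem' := by simpa [mon_zero] using isAlgebraic_one
      add_mem' := fun {a b} ha hb => by
        change IsAlgebraic R _
        rw [mon_add hN0]
        exact IsAlgebraic.mul ha hb
      neg_mem' := fun {a} ha => by
        change IsAlgebraic R _
        rw [mon_neg]
        exact IsAlgebraic.inv ha }
  have h1 : ∀ i, IsAlgebraic R (N i) := fun i => by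
    obtain ⟨m, hm, h1⟩ := dual_sat H (Pi.single i 1) fun φ hφ => by
      rw [sum_single]
      refine congrFun (h φ (fun a ha => hφ a ?_) fun b hb => ?_) i
      · obtain ⟨h1, c, h2⟩ := ha
        have e : mon N a = c := by
          rw [← h2]
          simp only [mon, hN', div_zpow, prod_div_distrib]
          rw [zpow_sum ht, h1, zpow_zero, div_one]
        change IsAlgebraic R _
        rw [e]
        exact isAlgebraic_algebraMap (algebraMap ℚ R c)
      · rw [← sum_single φ b]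
        refine hφ _ ?_
        change IsAlgebraic R _
        rw [mon_single]
        exact isAlgebraic_algebraMap (⟨N b, Algebra.subset_adjoin
          (mem_coe.2 (mem_image_of_mem N hb))⟩ : R)
    have h2 : IsAlgebraic R (mon N (m • Pi.single i 1)) := h1
    rw [mon_nsmul, mon_single] at h2
    exact IsAlgebraic.of_pow hm h2
  let M := AlgebraicIndependent.matroid ℚ Ω
  have h2 : ∀ a, x0 a ∈ M.closure (Set.range N) := fun a => by
    let A := Algebra.adjoin ℚ (Set.range N)
    have h3 : x0 a ∈ (integralClosure (Subring.closure (A : Set Ω)) Ω).toSubring := by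
      rw [← iInf_valuationSubring_superset, Subring.mem_iInf]
      rintro ⟨V, hV⟩
      have h4 : ∀ c : ℚ, V.valuation c ≤ 1 := fun c =>
        (V.valuation_le_one_iff _).2 (hV (A.algebraMap_mem c))
      obtain ⟨j, h5, h6⟩ := hG V h4 y'
      have h7 : V.valuation (N j) ≤ 1 :=
        (V.valuation_le_one_iff _).2 (hV (Algebra.subset_adjoin ⟨j, rfl⟩))
      have h8 := val_lf _ h4 (l b1) h6
      rw [hy, div_self ht, map_one] at h8
      rw [map_mul] at h7
      obtain ⟨r, hr⟩ := h0 a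
      exact (V.valuation_le_one_iff _).1
        ((hr ▸ val_lf _ h4 r h5).trans ((le_mul_of_one_le_right' h8).trans h7))
    have h4 : Subring.closure (A : Set Ω) = A.toSubring := Subring.closure_eq A.toSubring
    rw [h4] at h3
    have h5 : IsIntegral A (x0 a) := h3
    rw [AlgebraicIndependent.matroid_closure_eq]
    exact h5.isAlgebraic
  have h3 : Set.range N ⊆ M.closure (B.image N : Finset Ω) := by
    rintro _ ⟨i, rfl⟩
    rw [AlgebraicIndependent.matroid_closure_eq]
    exact h1 i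
  have h4 : Set.range x0 ⊆ M.closure (B.image N : Finset Ω) := by
    rintro _ ⟨a, rfl⟩
    exact M.closure_subset_closure_of_subset_closure h3 (h2 a)
  have h5 : M.Indep (Set.range x0) := hx.to_subtype_range
  have h6 := (h5.encard_le_eRk_of_subset h4).trans
    ((M.eRk_closure_eq _).le.trans (M.eRk_le_encard _))
  rw [Set.encard_coe_eq_coe_finsetCard, ← Set.image_univ, hx.injective.injOn.encard_image,
    Set.encard_univ, ENat.card_eq_coe_fintype_card, Fintype.card_fin, Nat.cast_le] at h6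
  have := card_image_le (s := B) (f := N)
  omega

theorem pairs (hc : 2 * n + 2 ≤ Fintype.card ι) (hl : GP l)
    (hN : ∀ i, lf (l i) x * lf (l i) y ≠ 0) (hI : Ind fun i => lf (l i) x * lf (l i) y)
    (hT : Tors fun i => lf (l i) x * lf (l i) y) (hx : AlgebraicIndependent ℚ x) :
    ∃ (f g : Fin (n + 1) → ι) (c : Fin (n + 1) → ℚ), Function.Injective (Sum.elim f g) ∧
      (∀ j, c j ≠ 0) ∧
      ∀ j, lf (l (f j)) x * lf (l (f j)) y = c j * (lf (l (g j)) x * lf (l (g j)) y) := by
  classical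
  rcases twin_cases n _ (max_twice hc hl hN hI) with ⟨B, h1, h2⟩ | ⟨f, g, h1, h2⟩
  · have : Nonempty ι := Fintype.card_pos_iff.1 (by omega)
    refine (alg_small (fun V hV y' => ?_) hN B h1 h2 x
      (fun a => ⟨Pi.single a 1, (lf_single a x).symm⟩) hx).elim
    obtain ⟨j, -, h3⟩ := exists_good hl V.valuation hV x y' univ (by rw [card_univ]; omega)
    exact ⟨j, h3⟩
  have h3 : ∀ j, ∃ c : ℚ, lf (l (f j)) x * lf (l (f j)) y /
      (lf (l (g j)) x * lf (l (g j)) y) = c := fun j => by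
    obtain ⟨m, hm, -, h3⟩ := dual_sat (rel _ hN) (Pi.single (f j) 1 - Pi.single (g j) 1)
      fun φ hφ => by rw [sum_sub, h2 j φ hφ, sub_self]
    rw [mon_nsmul] at h3
    have := hT _ m (by simp) hm h3
    rwa [mon_sub hN] at this
  choose c hc using h3
  refine ⟨f, g, c, h1, fun j h0 => ?_, fun j => ?_⟩
  · have := hc j
    rw [h0, Rat.cast_zero] at this
    exact div_ne_zero (hN _) (hN _) this
  · rw [← hc, div_mul_cancel₀ _ (hN _)]

theorem jac_zero (hy : y ≠ 0) (hx : AlgebraicIndependent ℚ x) (u v : Fin (n + 1) → Fin (n + 1) → ℚ)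
    (c : Fin (n + 1) → ℚ) (h : ∀ j, lf (u j) x * lf (u j) y = c j * (lf (v j) x * lf (v j) y))
    (z : Fin (n + 1) → ℚ) : (Matrix.of fun j a => (∑ b, u j b * z b) * u j a -
      c j * (∑ b, v j b * z b) * v j a).det = 0 := by
  let P : Matrix (Fin (n + 1)) (Fin (n + 1)) (MvPolynomial (Fin (n + 1)) ℚ) :=
    Matrix.of fun j a => (∑ b, u j b • MvPolynomial.X b) * MvPolynomial.C (u j a) -
      MvPolynomial.C (c j) * (∑ b, v j b • MvPolynomial.X b) * MvPolynomial.C (v j a)
  have h1 : MvPolynomial.aeval x P.det = 0 := by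
    rw [AlgHom.map_det]
    refine Matrix.exists_mulVec_eq_zero_iff.1 ⟨y, hy, funext fun j => ?_⟩
    have e := h j
    simp only [lf] at e
    simp only [Matrix.mulVec, dotProduct, P, AlgHom.mapMatrix_apply, Matrix.map_apply,
      Matrix.of_apply, map_sub, map_mul, map_sum, map_smul, MvPolynomial.aeval_X,
      MvPolynomial.aeval_C, eq_ratCast, Rat.smul_def, sub_mul, sum_sub_distrib, mul_assoc,
      ← mul_sum, Pi.zero_apply]
    exact sub_eq_zero.2 e
  have h2 : P.det = 0 := (injective_iff_map_eq_zero _).1 hx _ h1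
  have h3 := congrArg (MvPolynomial.aeval z) h2
  rw [AlgHom.map_det, map_zero] at h3
  rw [← h3]
  congr 1
  ext j a
  simp [P]

end Pool.Agent.Lib.MP_651af7_nt.Qp
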