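import Pool.Agent.Lib.MP_651af7_nt.Qp.Tri

/-! The end of the triangle case, and six lines not tangent to a conic. -/

namespace Pool.Agent.Lib.MP_651af7_nt.Qp

open Finset

variable {Ω ι : Type} [Field Ω] [CharZero Ω] [Fintype ι] {l : ι → Fin 3 → ℚ}

/-- The determinant of three vectors. -/
def br (a b c : Fin 3 → ℚ) : ℚ :=
  a 0 * b 1 * c 2 - a 0 * b 2 * c 1 - a 1 * b 0 * c 2 + a 1 * b 2 * c 0 + a 2 * b 0 * c 1 -
    a 2 * b 1 * c 0

omit [Fintype ι] in
theorem br_ne (hl : GP l) {f g : Fin 3 → ι} (hi : Function.Injective (Sum.elim f g))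
    (a b d : Fin 3 ⊕ Fin 3) (h : a ≠ b ∧ a ≠ d ∧ b ≠ d) :
    br (l (Sum.elim f g a)) (l (Sum.elim f g b)) (l (Sum.elim f g d)) ≠ 0 := by
  have h1 : Function.Injective ![a, b, d] := by
    intro i j
    fin_cases i <;> fin_cases j <;> simp [h.1, h.2.1, h.2.2, h.1.symm, h.2.1.symm, h.2.2.symm]
  have := hl _ (hi.comp h1)
  rwa [Matrix.det_fin_three] at this

omit [Fintype ι] in
theorem tri_ne (hl : GP l) {f g : Fin 3 → ι} (hi : Function.Injective (Sum.elim f g))
    (hf : ∀ j, l (f j) j = 0) (hg : ∀ j, l (g j) j = 0) :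
    (∀ j k, j ≠ k → l (f j) k ≠ 0) ∧
      ∀ j, l (f j) (j + 1) * l (g j) (j + 2) ≠ l (f j) (j + 2) * l (g j) (j + 1) := by
  refine ⟨fun j k h e => br_ne hl hi (.inl j) (.inl k) (.inr k) (by simp [h]) ?_,
    fun j e => br_ne hl hi (.inl (j + 1)) (.inl j) (.inr j) (by simp) ?_⟩
  · have h1 := hf k
    have h2 := hg k
    fin_cases k <;> simp_all [br]
  · have h1 := hf j
    have h2 := hg j
    fin_cases j
    · simp only [br, Sum.elim_inl, Sum.elim_inr, Fin.zero_eta, Fin.reduceAdd] at *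
      rw [h1, h2]
      linear_combination l (f 1) 0 * e
    · simp only [br, Sum.elim_inl, Sum.elim_inr, Fin.mk_one, Fin.reduceAdd] at *
      rw [h1, h2]
      linear_combination l (f 2) 1 * e
    · simp only [br, Sum.elim_inl, Sum.elim_inr, Fin.reduceFinMk, Fin.reduceAdd] at *
      rw [h1, h2]
      linear_combination l (f 0) 2 * e

/-- The family with the first coordinate added. -/
def ex (l : ι → Fin 3 → ℚ) (o : Option ι) : Fin 3 → ℚ := o.elim (Pi.single 0 1) l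

theorem tri_end (hc : Fintype.card ι = 6) (hl : GP l) {f g : Fin 3 → ι}
    (hi : Function.Injective (Sum.elim f g)) (hf : ∀ j, l (f j) j = 0) (hg : ∀ j, l (g j) j = 0)
    {X Y : Fin 3 → Ω} {c : Fin 3 → ℚ}
    (h : ∀ j, lf (l (f j)) X * lf (l (f j)) Y = c j * (lf (l (g j)) X * lf (l (g j)) Y))
    (hk : ∀ k, ∃ κ : ℚ, κ ≠ 0 ∧ X k * Y k = κ * (X 0 * Y 0))
    (hN : ∀ o, lf (ex l o) X * lf (ex l o) Y ≠ 0) (hI : Ind fun o => lf (ex l o) X * lf (ex l o) Y)
    (x0 : Fin 3 → Ω) (h0 : ∀ a, ∃ r, x0 a = lf r X) : ¬ AlgebraicIndependent ℚ x0 := by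
  classical
  have hs : Function.Surjective (Sum.elim f g) :=
    ((Fintype.bijective_iff_injective_and_card _).2 ⟨hi, by simp [hc]⟩).2
  have ht : ∀ φ ∈ ann (rel _ hN), ∀ i, ∃ j, φ (some i) = φ (some (f j)) := fun φ hφ i => by
    obtain ⟨j | j, rfl⟩ := hs i
    · exact ⟨j, rfl⟩
    · have := hφ (Pi.single (some (f j)) 1 - Pi.single (some (g j)) 1) ⟨by simp, c j, by
        rw [mon_sub hN]
        exact div_eq_of_eq_mul (hN _) (h j)⟩
      rw [sum_sub, sub_eq_zero] at this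
      exact ⟨j, this.symm⟩
  have hv : ∀ φ ∈ ann (rel _ hN), ∃ V : ValuationSubring Ω, (∀ c : ℚ, V.valuation c ≤ 1) ∧
      (∀ o o', φ o ≤ φ o' → V.valuation (lf (ex l o) X * lf (ex l o) Y) ≤
        V.valuation (lf (ex l o') X * lf (ex l o') Y)) ∧
      ∀ o o', φ o < φ o' → V.valuation (lf (ex l o) X * lf (ex l o) Y) <
        V.valuation (lf (ex l o') X * lf (ex l o') Y) := fun φ hφ => by
    obtain ⟨V, h1, h2, h3⟩ := exists_val hN hI φ fun a h1 h2 => hφ a ⟨h1, h2⟩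
    refine ⟨V, h1, fun o o' h4 => ?_, fun o o' h4 => ?_⟩
    · have := h2 (Pi.single o 1 - Pi.single o' 1) (by simp) (by rwa [sum_sub, sub_nonpos])
      rwa [mon_sub hN, map_div₀, div_le_one₀ (zero_lt_iff.2 ((map_ne_zero _).2 (hN o')))] at this
    · have := h3 (Pi.single o 1 - Pi.single o' 1) (by simp) (by rwa [sum_sub, sub_neg])
      rwa [mon_sub hN, map_div₀, div_lt_one₀ (zero_lt_iff.2 ((map_ne_zero _).2 (hN o')))] at this
  have e0 : lf (ex l none) X * lf (ex l none) Y = X 0 * Y 0 := by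
    simp only [ex, Option.elim, lf_single]
  have h1 : ∀ φ ∈ ann (rel _ hN), ¬ ∀ j, φ (some (f j)) < φ none := fun φ hφ h1 => by
    obtain ⟨V, h2, -, h3⟩ := hv φ hφ
    obtain ⟨i, -, h4, h5⟩ := exists_good hl V.valuation h2 X Y univ (by rw [card_univ]; omega)
    obtain ⟨j, hj⟩ := ht φ hφ i
    have h6 := h3 (some i) none (hj ▸ h1 j)
    rw [e0, map_mul, map_mul] at h6
    exact not_le.2 h6 (mul_le_mul' (h4 0) (h5 0))
  let e : Option (Fin 3) → Option ι := Option.map f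
  have hP : ∀ ψ ∈ (ann (rel _ hN)).map (LinearMap.funLeft ℚ ℚ e), ∀ i, ∃ j ≠ i, ψ i ≤ ψ j := by
    rintro _ ⟨φ, hφ, rfl⟩ i
    by_contra hcon
    push Not at hcon
    rcases i with _ | j
    · exact h1 φ hφ fun j => hcon (some j) (by simp)
    obtain ⟨V, h2, h3, h4⟩ := hv φ hφ
    refine h1 (-φ) (neg_mem hφ) fun k => neg_lt_neg (not_le.1 fun h5 => ?_)
    by_cases hjk : j = k
    · exact not_lt.2 (hjk ▸ h5) (hcon none (by simp))
    have h6 := h3 _ _ h5
    have h7 := h4 none (some (f j)) (hcon none (by simp))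
    rw [e0] at h6 h7
    refine not_lt.2 h6 (tri_pos (u := fun j => l (f j)) hf (tri_ne hl hi hf hg).1 V.valuation h2
      ((map_ne_zero _).2 (e0 ▸ hN none)) (fun k => ?_) hjk h7 fun m hm =>
        h4 (some (f m)) (some (f j)) (hcon (some m) (by simpa using hm)))
    obtain ⟨κ, h8, h9⟩ := hk k
    rw [← map_mul, h9, map_mul, val_rat _ h2 h8, one_mul]
  rcases twin_cases 2 _ hP with ⟨B, h2, h3⟩ | ⟨f', g', h2, -⟩
  · refine alg_small (l := ex l) (fun V hV y' => ?_) hN (B.image e) (card_image_le.trans h2)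
      (fun φ hφ h4 => ?_) x0 h0
    · obtain ⟨j, -, h3⟩ := exists_good hl V.valuation hV X y' univ (by rw [card_univ]; omega)
      exact ⟨some j, h3⟩
    · have h5 := h3 _ ⟨φ, hφ, rfl⟩ fun b hb => h4 _ (mem_image_of_mem e hb)
      funext o
      rcases o with _ | i
      · exact congrFun h5 none
      · obtain ⟨j, hj⟩ := ht φ hφ i
        exact hj.trans (congrFun h5 (some j))
  · have := Fintype.card_le_of_injective _ h2
    simp at this

omit [Fintype ι] in
theorem jac_of_conic (hl : GP l)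
    (hQ : ∀ Q : QuadraticForm ℚ (Fin 3 → ℚ), (∀ i, Q (l i) = 0) → Q = 0)
    {f g : Fin 3 → ι} (hi : Function.Bijective (Sum.elim f g)) (c : Fin 3 → ℚ) (hc : ∀ j, c j ≠ 0) :
    ∃ z : Fin 3 → ℚ, (Matrix.of fun j a => (∑ b, l (f j) b * z b) * l (f j) a -
      c j * (∑ b, l (g j) b * z b) * l (g j) a).det ≠ 0 := by
  by_contra hcon
  push Not at hcon
  have hb := br_ne hl hi.1
  have b1 := hb (.inl 0) (.inl 1) (.inr 0) (by simp)
  have b2 := hb (.inl 0) (.inl 1) (.inr 1) (by simp)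
  have b3 := hb (.inl 0) (.inr 1) (.inr 0) (by simp)
  have b4 := hb (.inl 0) (.inr 1) (.inl 1) (by simp)
  have b5 := hb (.inr 0) (.inl 1) (.inl 0) (by simp)
  have b6 := hb (.inl 0) (.inl 1) (.inl 2) (by simp)
  have b7 := hb (.inr 0) (.inr 1) (.inl 2) (by simp)
  simp only [Sum.elim_inl, Sum.elim_inr] at b1 b2 b3 b4 b5 b6 b7
  have h1 := hcon (crossProduct (l (f 0)) (l (f 1)))
  have h2 := hcon (crossProduct (l (f 0)) (l (g 1)))
  simp only [Matrix.det_fin_three, Matrix.of_apply, Fin.sum_univ_three, cross_apply,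
    Matrix.cons_val] at h1 h2
  have h3 : br (l (f 0)) (l (f 1)) (l (f 2)) * br (l (g 0)) (l (g 1)) (l (f 2)) =
      c 2 * (br (l (f 0)) (l (f 1)) (l (g 2)) * br (l (g 0)) (l (g 1)) (l (g 2))) := by
    refine mul_left_cancel₀ (mul_ne_zero (mul_ne_zero (hc 0) b1) (mul_ne_zero (hc 1) b2)) ?_
    simp only [br]
    linear_combination h1
  have h4 : br (l (f 0)) (l (g 1)) (l (f 2)) * br (l (g 0)) (l (f 1)) (l (f 2)) =
      c 2 * (br (l (f 0)) (l (g 1)) (l (g 2)) * br (l (g 0)) (l (f 1)) (l (g 2))) := by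
    refine mul_left_cancel₀ (mul_ne_zero (mul_ne_zero (hc 0) b3) b4) ?_
    simp only [br]
    linear_combination -h2
  let L : (Fin 3 → ℚ) → (Fin 3 → ℚ) → (Fin 3 → ℚ) →ₗ[ℚ] ℚ := fun a b =>
    { toFun := br a b
      map_add' := fun u v => by simp only [br, Pi.add_apply]; ring
      map_smul' := fun r u => by
        simp only [br, Pi.smul_apply, smul_eq_mul, RingHom.id_apply]
        ring }
  let Q : QuadraticForm ℚ (Fin 3 → ℚ) :=
    (br (l (f 0)) (l (g 1)) (l (f 2)) * br (l (g 0)) (l (f 1)) (l (f 2))) •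
      QuadraticMap.linMulLin (L (l (f 0)) (l (f 1))) (L (l (g 0)) (l (g 1))) -
    (br (l (f 0)) (l (f 1)) (l (f 2)) * br (l (g 0)) (l (g 1)) (l (f 2))) •
      QuadraticMap.linMulLin (L (l (f 0)) (l (g 1))) (L (l (g 0)) (l (f 1)))
  have hq : ∀ z, Q z = br (l (f 0)) (l (g 1)) (l (f 2)) * br (l (g 0)) (l (f 1)) (l (f 2)) *
      (br (l (f 0)) (l (f 1)) z * br (l (g 0)) (l (g 1)) z) -
      br (l (f 0)) (l (f 1)) (l (f 2)) * br (l (g 0)) (l (g 1)) (l (f 2)) *
      (br (l (f 0)) (l (g 1)) z * br (l (g 0)) (l (f 1)) z) := fun z => rfl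
  have h5 := hQ Q fun i => by
    obtain ⟨j | j, rfl⟩ := hi.2 i
    · rw [hq]
      fin_cases j <;> simp only [br, Sum.elim_inl, Fin.zero_eta, Fin.mk_one, Fin.reduceFinMk] <;>
        ring
    · rw [hq]
      fin_cases j
      · simp only [br, Sum.elim_inr, Fin.zero_eta]
        ring
      · simp only [br, Sum.elim_inr, Fin.mk_one]
        ring
      · simp only [Sum.elim_inr, Fin.reduceFinMk]
        rw [h3, h4]
        ring
  have h6 := hq (l (f 0) + l (f 1))
  rw [h5] at h6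
  refine mul_ne_zero (mul_ne_zero b6 b7) (mul_ne_zero b4 b5) ?_
  simp only [br, Pi.add_apply, zero_apply] at h6 ⊢
  linear_combination h6

end Pool.Agent.Lib.MP_651af7_nt.Qp
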