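import Pool.Agent.Lib.MP_651af7_nt.Qp.Pr
import Pool.Agent.Lib.MP_651af7_nt.Qp.TriB

/-! Quadratic points whose norms are units. -/

namespace Pool.Agent.Lib.MP_651af7_nt.Qp

open Finset Filter Matrix

variable {ι : Type} [Fintype ι] {n : ℕ}

/-- The exceptional norms. -/
def Exc (l : ι → Fin (n + 1) → ℚ) (ν : ι → ℚ) : Prop :=
  ∃ f g : Fin (n + 1) → ι, Function.Injective (Sum.elim f g) ∧ ∃ c : Fin (n + 1) → ℚ,
    (∀ j, c j ≠ 0) ∧ (∀ z : Fin (n + 1) → ℚ, (Matrix.of fun j a =>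
      (∑ b, l (f j) b * z b) * l (f j) a - c j * (∑ b, l (g j) b * z b) * l (g j) a).det = 0) ∧
    (¬ (n = 2 ∧ ∃ p : Matrix (Fin (n + 1)) (Fin (n + 1)) ℚ, p.det ≠ 0 ∧
      ∀ j, ∑ b, l (f j) b * p j b = 0 ∧ ∑ b, l (g j) b * p j b = 0)) ∧
    ∀ j, ν (f j) = c j * ν (g j)

theorem lf_change {Ω : Type} [Field Ω] [CharZero Ω] (p : Matrix (Fin (n + 1)) (Fin (n + 1)) ℚ)
    (hp : p.det ≠ 0) (r : Fin (n + 1) → ℚ) (x : Fin (n + 1) → Ω) :
    lf (fun k => ∑ b, r b * p k b) (fun k => lf (pᵀ⁻¹ k) x) = lf r x := by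
  have hT : IsUnit pᵀ.det := by rw [det_transpose]; exact Ne.isUnit hp
  have h := cramer pᵀ⁻¹ (isUnit_nonsing_inv_det _ hT).ne_zero x
  rw [nonsing_inv_nonsing_inv _ hT] at h
  rw [lf, lf]
  conv_rhs => enter [2, a]; rw [h a, mul_sum]
  rw [sum_comm]
  refine sum_congr rfl fun k _ => ?_
  push_cast
  rw [sum_mul]
  exact sum_congr rfl fun b _ => by rw [transpose_apply, mul_assoc]

theorem tri_main {l : ι → Fin 3 → ℚ} (hc : Fintype.card ι = 6) (hl : GP l) {τ : Type}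
    (U : Ultrafilter τ) (S : Finset ℕ) {x y : Fin 3 → Om U} {z0 : Om U} (hz : z0 ≠ 0)
    (hu : ∀ i, GU U S (lf (l i) x * lf (l i) y / z0))
    (hr : ∀ m, ∃ ρ : τ → ℚ, lf m x * lf m y / z0 = gm U fun t => (ρ t : ℂ)) {f g : Fin 3 → ι}
    (hi : Function.Injective (Sum.elim f g)) {c : Fin 3 → ℚ} (hc0 : ∀ j, c j ≠ 0)
    (h : ∀ j, lf (l (f j)) x * lf (l (f j)) y = c j * (lf (l (g j)) x * lf (l (g j)) y))
    (hd : ∀ z : Fin 3 → ℚ, (Matrix.of fun j a => (∑ b, l (f j) b * z b) * l (f j) a -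
      c j * (∑ b, l (g j) b * z b) * l (g j) a).det = 0) (p : Matrix (Fin 3) (Fin 3) ℚ)
    (hp : p.det ≠ 0) (hp' : ∀ j, ∑ b, l (f j) b * p j b = 0 ∧ ∑ b, l (g j) b * p j b = 0) :
    ¬ AlgebraicIndependent ℚ x := by
  let l' : ι → Fin 3 → ℚ := fun i k => ∑ b, l i b * p k b
  let X : Fin 3 → Om U := fun k => lf (pᵀ⁻¹ k) x
  let Y : Fin 3 → Om U := fun k => lf (pᵀ⁻¹ k) y
  have eX : ∀ i, lf (l' i) X = lf (l i) x := fun i => lf_change p hp _ _
  have eY : ∀ i, lf (l' i) Y = lf (l i) y := fun i => lf_change p hp _ _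
  have hl' : GP l' := fun e he => by
    have : (Matrix.of fun j => l' (e j)) = (Matrix.of fun j => l (e j)) * pᵀ := rfl
    rw [this, det_mul, det_transpose]
    exact mul_ne_zero (hl e he) hp
  have hf : ∀ j, l' (f j) j = 0 := fun j => (hp' j).1
  have hg : ∀ j, l' (g j) j = 0 := fun j => (hp' j).2
  have h' : ∀ j, lf (l' (f j)) X * lf (l' (f j)) Y =
      c j * (lf (l' (g j)) X * lf (l' (g j)) Y) := fun j => by simp only [eX, eY, h]
  have hk := tri_rel (u := fun j => l' (f j)) (v := fun j => l' (g j)) hf hg hc0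
    (tri_ne hl' hi hf hg).2 (fun t => by
      have h1 := congrArg (· * pᵀ.det) (hd fun b => ∑ k, t k * p k b)
      simp only [zero_mul, ← det_mul] at h1
      rw [← h1]
      congr 1
      ext j a
      simp only [l', Matrix.mul_apply, Matrix.of_apply, transpose_apply, Fin.sum_univ_three]
      ring) h'
  have hgu : ∀ {S : Finset ℕ} {a : Om U}, GU U S a → a ≠ 0 := by
    rintro S _ ⟨u, h1, rfl⟩ e
    rw [← map_zero (gm U), gm_eq] at e
    obtain ⟨t, ht⟩ := e.exists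
    exact (h1 t).1 (Rat.cast_eq_zero.1 ht)
  have hv : ∀ V : ValuationSubring (Om U), (∀ c : ℚ, V.valuation c ≤ 1) →
      (∀ i, V.valuation (lf (l i) x * lf (l i) y / z0) = 1) →
      V.valuation (X 0 * Y 0 / z0) = 1 := fun V h1 h2 => by
    have h3 : V.valuation z0 ≠ 0 := (map_ne_zero _).2 hz
    rw [map_div₀, div_eq_one_iff_eq h3]
    refine tri_val hc.ge hl' hf hk _ h1 h3 fun i => ?_
    rw [eX, eY, ← div_eq_one_iff_eq h3, ← map_div₀, h2]
  have h0 : X 0 * Y 0 / z0 ≠ 0 := by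
    have h1 : ∀ a : Om U, a ≠ 0 → (⊤ : ValuationSubring (Om U)).valuation a = 1 := fun a ha => by
      refine le_antisymm
        ((ValuationSubring.valuation_le_one_iff _ _).2 (ValuationSubring.mem_top _)) ?_
      rw [← inv_le_one₀ (zero_lt_iff.2 ((map_ne_zero _).2 ha)), ← map_inv₀]
      exact (ValuationSubring.valuation_le_one_iff _ _).2 (ValuationSubring.mem_top _)
    intro e
    have := hv ⊤
      (fun c => (ValuationSubring.valuation_le_one_iff _ _).2 (ValuationSubring.mem_top _))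
      fun i => h1 _ (hgu (hu i))
    rw [e, map_zero] at this
    exact zero_ne_one this
  obtain ⟨ρ, hρ⟩ := hr (pᵀ⁻¹ 0)
  obtain ⟨S', h1, h2⟩ := gu_of_val U S ρ (Ultrafilter.eventually_not.2 fun e => h0 (by
      rw [hρ, ← map_zero (gm U), gm_eq]
      exact e.mono fun t ht => by simp [ht]))
    fun V h1 h2 => hρ ▸ hv V h1 fun i => h2 _ (hu i)
  have h3 : ∀ o, GU U S' (lf (ex l' o) X * lf (ex l' o) Y / z0) := by
    rintro (_ | i)
    · simp only [ex, Option.elim, lf_single]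
      exact hρ ▸ h2
    · simp only [ex, Option.elim, eX, eY]
      obtain ⟨u, h3, e⟩ := hu i
      exact ⟨u, fun t => ⟨(h3 t).1, fun q h4 h5 => (h3 t).2 q h4 fun h6 => h5 (h1 h6)⟩, e⟩
  exact tri_end hc hl' hi hf hg h' hk (fun o e => hgu (h3 o) (by rw [e, zero_div]))
    (ind_tors U S' hz h3).1 x fun a => ⟨_, ((lf_change p hp _ x).trans (lf_single a x)).symm⟩

theorem pairs_main {l : ι → Fin (n + 1) → ℚ} (hc : Fintype.card ι = 2 * n + 2) (hl : GP l)
    (S : Finset ℕ) : ∃ Θ : MvPolynomial (Fin (n + 1)) ℚ, Θ ≠ 0 ∧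
      ∀ (x y : Fin (n + 1) → ℂ) (ν : (Fin (n + 1) → ℚ) → ℚ), (∀ m, lf m x * lf m y = ν m) →
        (∀ i j, SU S (ν (l i) / ν (l j))) → (¬ Exc l fun i => ν (l i)) →
          MvPolynomial.aeval x Θ = 0 := by
  by_contra hcon
  push Not at hcon
  let τ := {q : (Fin (n + 1) → ℂ) × (Fin (n + 1) → ℂ) × ((Fin (n + 1) → ℚ) → ℚ) //
    (∀ m, lf m q.1 * lf m q.2.1 = q.2.2 m) ∧ (∀ i j, SU S (q.2.2 (l i) / q.2.2 (l j))) ∧
      ¬ Exc l fun i => q.2.2 (l i)}
  obtain ⟨U, hU⟩ := exists_gen (τ := τ) (fun t => t.1.1) fun Θ h => by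
    obtain ⟨x, y, ν, h1, h2, h3, h4⟩ := hcon Θ h
    exact ⟨⟨(x, y, ν), h1, h2, h3⟩, h4⟩
  obtain ⟨i0⟩ : Nonempty ι := Fintype.card_pos_iff.1 (by omega)
  let x : Fin (n + 1) → Om U := fun a => gm U fun t => t.1.1 a
  let y : Fin (n + 1) → Om U := fun a => gm U fun t => t.1.2.1 a
  have e : ∀ m, lf m x * lf m y = gm U fun t => (t.1.2.2 m : ℂ) := fun m => by
    rw [gm_lf, gm_lf, ← map_mul]
    exact congrArg _ (funext fun t => t.2.1 m)
  have hN : ∀ i, lf (l i) x * lf (l i) y ≠ 0 := fun i h => by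
    rw [e, ← map_zero (gm U), gm_eq] at h
    obtain ⟨t, ht⟩ := h.exists
    exact (t.2.2.1 i i).1 (by rw [Rat.cast_eq_zero.1 ht, zero_div])
  have e' : ∀ m, lf m x * lf m y / (lf (l i0) x * lf (l i0) y) =
      gm U fun t => ((t.1.2.2 m / t.1.2.2 (l i0) : ℚ) : ℂ) := fun m => by
    rw [e, e, div_eq_mul_inv, gm_inv, ← map_mul]
    exact congrArg _ (funext fun t => by simp [div_eq_mul_inv])
  have hu : ∀ i, GU U S (lf (l i) x * lf (l i) y / (lf (l i0) x * lf (l i0) y)) :=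
    fun i => ⟨_, fun t => t.2.2.1 i i0, e' _⟩
  obtain ⟨h1, h2⟩ := ind_tors U S (hN i0) hu
  obtain ⟨f, g, c, h3, h4, h5⟩ := pairs hc.ge hl hN h1 h2 hU
  have h6 := jac_zero (fun h => hN i0 (by simp [h, lf])) hU _ _ c h5
  have h7 : ∀ᶠ t : τ in U, ∀ j, t.1.2.2 (l (f j)) = c j * t.1.2.2 (l (g j)) :=
    eventually_all.2 fun j => by
      have := h5 j
      rw [e, e, gm_rat, ← map_mul, gm_eq] at this
      exact this.mono fun t ht => by rw [Pi.mul_apply] at ht; exact_mod_cast ht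
  obtain ⟨t, ht⟩ := h7.exists
  refine t.2.2.2 ⟨f, g, h3, c, h4, h6, ?_, ht⟩
  rintro ⟨rfl, p, h7, h8⟩
  exact tri_main hc hl U S (hN i0) hu (fun m => ⟨_, e' m⟩) h3 h4 h5 h6 p h7 h8 hU

theorem exists_homog {σ : Type} {Θ : MvPolynomial σ ℚ} (h : Θ ≠ 0) :
    ∃ (d : ℕ) (P : MvPolynomial σ ℚ), P ≠ 0 ∧ P.IsHomogeneous d ∧
      ∀ (K : Type) [Field K] [CharZero K] (x : σ → K),
        (∀ r : ℚ, r ≠ 0 → MvPolynomial.aeval (fun a => (r : K) * x a) Θ = 0) →
          MvPolynomial.aeval x P = 0 := by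
  obtain ⟨d, hd, h1⟩ := exists_ne_zero_of_sum_ne_zero
    ((MvPolynomial.sum_homogeneousComponent Θ).trans_ne h)
  refine ⟨d, _, h1, MvPolynomial.homogeneousComponent_isHomogeneous d Θ, fun K _ _ x hx => ?_⟩
  let q : Polynomial K := ∑ k ∈ range (Θ.totalDegree + 1),
    Polynomial.monomial k (MvPolynomial.aeval x (MvPolynomial.homogeneousComponent k Θ))
  have h2 : q = 0 := by
    refine Polynomial.eq_zero_of_infinite_isRoot _ (Set.Infinite.mono ?_
      ((Set.finite_singleton (0 : ℚ)).infinite_compl.image (f := Rat.cast)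
        Rat.cast_injective.injOn))
    rintro _ ⟨r, hr, rfl⟩
    have h3 := hx r hr
    rw [← MvPolynomial.sum_homogeneousComponent Θ, map_sum] at h3
    rw [Set.mem_ofPred_eq, Polynomial.IsRoot, Polynomial.eval_finsetSum, ← h3]
    refine sum_congr rfl fun k _ => ?_
    have h4 := MvPolynomial.homogeneousComponent_isHomogeneous k Θ
    generalize MvPolynomial.homogeneousComponent k Θ = P at h4
    rw [Polynomial.eval_monomial, MvPolynomial.aeval_def, MvPolynomial.aeval_def,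
      MvPolynomial.eval₂_eq, MvPolynomial.eval₂_eq, sum_mul]
    refine sum_congr rfl fun m hm => ?_
    rw [h4.degree_eq_sum_deg_support hm]
    simp only [mul_pow, prod_mul_distrib, prod_pow_eq_pow_sum]
    ring
  have h3 := congrArg (fun q => q.coeff d) h2
  simpa [q, Polynomial.coeff_monomial, mem_range.1 hd] using h3

theorem main {l : ι → Fin (n + 1) → ℚ} (hc : Fintype.card ι = 2 * n + 2) (hl : GP l)
    (S : Finset ℕ) :
    ∃ (d : ℕ) (Θ : MvPolynomial (Fin (n + 1)) ℚ), Θ ≠ 0 ∧ Θ.IsHomogeneous d ∧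
      ∀ (K : Type) [Field K] [NumberField K], Module.finrank ℚ K = 2 → ∀ x : Fin (n + 1) → K,
        (∀ i, lf (l i) x ≠ 0) → (∀ i j (p : ℕ), p.Prime → p ∉ S →
          padicValRat p (Algebra.norm ℚ (lf (l i) x)) =
            padicValRat p (Algebra.norm ℚ (lf (l j) x))) →
          MvPolynomial.aeval x Θ = 0 ∨ Exc l fun i => Algebra.norm ℚ (lf (l i) x) := by
  classical
  obtain ⟨Θ, h1, h2⟩ := pairs_main hc hl S
  obtain ⟨d, P, h3, h4, h5⟩ := exists_homog h1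
  refine ⟨d, P, h3, h4, fun K _ _ hK x hx hv =>
    or_iff_not_imp_right.2 fun hE => h5 K x fun r hr => ?_⟩
  have hcard : Fintype.card (K →ₐ[ℚ] ℂ) = 2 := by rw [AlgHom.card, hK]
  obtain ⟨σ, σ', hne, huniv⟩ := card_eq_two.1 (card_univ.trans hcard)
  have e : ∀ (φ : K →ₐ[ℚ] ℂ) m (x : Fin (n + 1) → K), lf m (fun a => φ (x a)) = φ (lf m x) :=
    fun φ m x => by simp [lf]
  have e2 : ∀ m, lf m (fun a => (r : K) * x a) = algebraMap ℚ K r * lf m x := fun m => by
    simp only [lf, mul_sum, eq_ratCast]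
    exact sum_congr rfl fun a _ => by ring
  have hn : ∀ i, Algebra.norm ℚ (lf (l i) x) ≠ 0 := fun i => Algebra.norm_ne_zero_iff.2 (hx i)
  have h6 := h2 (fun a => σ (r * x a)) (fun a => σ' (r * x a))
    (fun m => Algebra.norm ℚ (lf m fun a => (r : K) * x a)) (fun m => by
      have := Algebra.norm_eq_prod_embeddings ℚ ℂ (lf m fun a => (r : K) * x a)
      rw [huniv, prod_pair hne, eq_ratCast] at this
      rw [e, e, this]) (fun i j => by
      simp only [e2, map_mul, Algebra.norm_algebraMap]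
      rw [mul_div_mul_left _ _ (pow_ne_zero _ hr)]
      refine ⟨div_ne_zero (hn i) (hn j), fun p hp hS => ?_⟩
      have := Fact.mk hp
      rw [padicValRat.div (hn i) (hn j), hv i j p hp hS, sub_self]) (by
      rintro ⟨f, g, a1, c, a2, a3, a4, a5⟩
      refine hE ⟨f, g, a1, c, a2, a3, a4, fun j => ?_⟩
      have := a5 j
      simp only [e2, map_mul, Algebra.norm_algebraMap] at this
      exact mul_left_cancel₀ (pow_ne_zero _ hr) (this.trans (mul_left_comm _ _ _)))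
  rw [← MvPolynomial.comp_aeval_apply] at h6
  exact (map_eq_zero σ).1 h6

end Pool.Agent.Lib.MP_651af7_nt.Qp
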