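import Pool.Agent.Lib.MP_651af7_nt.Qp.Core
import Pool.Agent.Lib.MP_651af7_nt.Qp.Cn

/-! Graded pieces of the discriminant relation. -/

namespace Pool.Agent.Lib.MP_651af7_nt.Qp

open Finset

variable {ι Ω : Type} [Fintype ι] [Field Ω] [CharZero Ω]

theorem graded {N : ι → Ω} (hN : ∀ i, N i ≠ 0) (hI : Ind N) {φ : ι → ℚ}
    (hφ : φ ∈ ann (rel _ hN)) {κ : Type} (a : κ → ι → ℤ) (ha : ∀ k k', ∑ i, a k i = ∑ i, a k' i)
    (g : ℚ → Ω) (s : Finset κ) : ∀ c : κ → ℚ, ∑ k ∈ s, (c k : Ω) * mon N (a k) = 0 →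
      ∑ k ∈ s, (c k : Ω) * mon N (a k) * g (∑ i, φ i * a k i) = 0 := by
  classical
  induction s using Finset.strongInduction with
  | H s ih =>
  intro c h
  by_cases h0 : ∀ k ∈ s, c k = 0
  · exact sum_eq_zero fun k hk => by simp [h0 k hk]
  push Not at h0
  obtain ⟨k0, h1, h2⟩ := h0
  have hm : ∀ k, mon N (a k) = mon N (a k - a k0) * mon N (a k0) := fun k => by
    rw [← mon_add hN, sub_add_cancel]
  have hm0 : mon N (a k0) ≠ 0 := prod_ne_zero_iff.2 fun i _ => zpow_ne_zero _ (hN i)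
  have hd : ∀ k, ∑ i, (a k - a k0) i = 0 := fun k => by
    simp only [Pi.sub_apply, sum_sub_distrib, ha k k0, sub_self]
  have hc : (c k0 : Ω) ≠ 0 := Rat.cast_ne_zero.2 h2
  obtain ⟨_, ⟨k1, h3, rfl⟩, d, h4⟩ := hI ((fun k => a k - a k0) '' (s.erase k0 : Finset κ))
    (by
      rintro _ ⟨k, -, rfl⟩
      exact hd k) (by
      have : (1 : Ω) = ∑ k ∈ s.erase k0, (-c k / c k0) • mon N (a k - a k0) := by
        refine mul_left_cancel₀ (mul_ne_zero hc hm0) ?_
        rw [← add_sum_erase _ _ h1] at h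
        rw [mul_one, mul_sum]
        refine (eq_neg_of_add_eq_zero_left h).trans ?_
        rw [← sum_neg_distrib]
        refine sum_congr rfl fun k _ => ?_
        rw [hm k, Rat.smul_def]
        push_cast
        field_simp
      rw [this]
      exact Submodule.sum_mem _ fun k hk => Submodule.smul_mem _ _
        (Submodule.subset_span ⟨_, ⟨k, hk, rfl⟩, rfl⟩))
  obtain ⟨h5, h6⟩ := mem_erase.1 (mem_coe.1 h3)
  have h7 : ∑ i, φ i * a k1 i = ∑ i, φ i * a k0 i := by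
    have := hφ _ ⟨hd k1, d, h4⟩
    simpa only [Pi.sub_apply, Int.cast_sub, mul_sub, sum_sub_distrib, sub_eq_zero] using this
  have h8 : ∀ ω : κ → Ω, ω k1 = ω k0 →
      ∑ k ∈ s.erase k1, ((Function.update c k0 (c k0 + d * c k1) k : ℚ) : Ω) * mon N (a k) * ω k =
        ∑ k ∈ s, (c k : Ω) * mon N (a k) * ω k := fun ω hω => by
    have h9 : k0 ∈ s.erase k1 := mem_erase.2 ⟨h5.symm, h1⟩
    rw [← add_sum_erase _ _ h6, ← add_sum_erase _ _ h9, ← add_sum_erase _ _ h9,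
      Function.update_self, hm k1, h4, hω, ← add_assoc]
    congr 1
    · push_cast
      ring
    · exact sum_congr rfl fun k hk => by rw [Function.update_of_ne (ne_of_mem_erase hk)]
  rw [← h8 (fun k => g (∑ i, φ i * a k i)) (by rw [h7])]
  refine ih _ (erase_ssubset h6) _ ?_
  simpa only [mul_one, h] using h8 (fun _ => 1) rfl

/-- A combination of rational conics. -/
def cmb (q : ι → Fin 6 → ℚ) (α : ι → Ω) : Fin 6 → Ω := fun p => ∑ i, (q i p : Ω) * α i

theorem dd_cmb (q : ι → Fin 6 → ℚ) (α β γ : ι → Ω) : dd (cmb q α) (cmb q β) (cmb q γ) =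
    ∑ k : ι × ι × ι, (dd (q k.1) (q k.2.1) (q k.2.2) : ℚ) * (α k.1 * β k.2.1 * γ k.2.2) := by
  have h : ∀ p r t, cmb q α p * cmb q β r * cmb q γ t = ∑ k : ι × ι × ι,
      ((q k.1 p : Ω) * q k.2.1 r * q k.2.2 t) * (α k.1 * β k.2.1 * γ k.2.2) := fun p r t => by
    simp only [cmb, Fintype.sum_prod_type]
    rw [mul_assoc, sum_mul_sum, sum_mul_sum]
    simp only [mul_sum]
    exact sum_congr rfl fun i _ => sum_congr rfl fun j _ => sum_congr rfl fun k _ => by ring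
  simp only [dd, h, mul_sum, ← sum_add_distrib, ← sum_sub_distrib]
  refine sum_congr rfl fun k _ => ?_
  push_cast
  ring

theorem ev_cmb (q : ι → Fin 6 → ℚ) (α : ι → Ω) (m : Fin 3 → ℚ) :
    ev (cmb q α) (fun a => (m a : Ω)) = ∑ i, α i * (ev (q i) m : ℚ) := by
  simp only [ev, cmb, sum_mul, ← sum_add_distrib]
  refine sum_congr rfl fun k _ => ?_
  push_cast
  ring

/-- The part of the coefficients at one level. -/
def lev (N : ι → Ω) (φ : ι → ℚ) (M : ℚ) (i : ι) : Ω := if φ i = M then N i else 0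

theorem top {N : ι → Ω} (hN : ∀ i, N i ≠ 0) (hI : Ind N) {φ : ι → ℚ}
    (hφ : φ ∈ ann (rel _ hN)) (q : ι → Fin 6 → ℚ) (h0 : dd (cmb q N) (cmb q N) (cmb q N) = 0)
    {M M' : ℚ} (hM : M' < M) (h : ∀ i, φ i = M ∨ φ i ≤ M') :
    dd (cmb q (lev N φ M)) (cmb q (lev N φ M)) (cmb q (lev N φ M)) = 0 ∧
      dd (cmb q (lev N φ M)) (cmb q (lev N φ M)) (cmb q (lev N φ M')) +
        dd (cmb q (lev N φ M)) (cmb q (lev N φ M')) (cmb q (lev N φ M)) +
        dd (cmb q (lev N φ M')) (cmb q (lev N φ M)) (cmb q (lev N φ M)) = 0 := by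
  classical
  let a : ι × ι × ι → ι → ℤ := fun k => Pi.single k.1 1 + Pi.single k.2.1 1 + Pi.single k.2.2 1
  have e1 : ∀ k, mon N (a k) = N k.1 * N k.2.1 * N k.2.2 := fun k => by
    simp only [a, mon_add hN, mon_single]
  have e2 : ∀ k, ∑ i, φ i * a k i = φ k.1 + φ k.2.1 + φ k.2.2 := fun k => by
    simp only [a, Pi.add_apply, Int.cast_add, mul_add, sum_add_distrib, sum_single]
  have hg := fun g => graded hN hI hφ a (fun k k' => by simp [a, sum_add_distrib]) g univ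
    (fun k => dd (q k.1) (q k.2.1) (q k.2.2)) (by simpa only [e1, dd_cmb] using h0)
  simp only [e1, e2] at hg
  have h' : ∀ i, φ i = M ∧ φ i ≠ M' ∨ φ i ≠ M ∧ φ i = M' ∨ φ i ≠ M ∧ φ i ≠ M' ∧ φ i < M' :=
    fun i => by
      rcases h i with h1 | h1
      · exact Or.inl ⟨h1, h1 ▸ hM.ne'⟩
      · rcases h1.eq_or_lt with h2 | h2
        · exact Or.inr (Or.inl ⟨h2 ▸ hM.ne, h2⟩)
        · exact Or.inr (Or.inr ⟨(h2.trans hM).ne, h2.ne, h2⟩)
  constructor
  · rw [dd_cmb, ← hg fun d => if d = 3 * M then 1 else 0]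
    refine sum_congr rfl fun ⟨i, j, k⟩ _ => ?_
    simp only [lev]
    have hi := h i
    have hj := h j
    have hk := h k
    split_ifs <;> first | ring1 | (exfalso; grind)
  · simp only [dd_cmb, ← sum_add_distrib]
    rw [← hg fun d => if d = 2 * M + M' then 1 else 0]
    refine sum_congr rfl fun ⟨i, j, k⟩ _ => ?_
    simp only [lev]
    rcases h' i with ⟨a1, a2⟩ | ⟨a1, a2⟩ | ⟨a1, a2, a3⟩ <;>
      rcases h' j with ⟨b1, b2⟩ | ⟨b1, b2⟩ | ⟨b1, b2, b3⟩ <;>
      rcases h' k with ⟨c1, c2⟩ | ⟨c1, c2⟩ | ⟨c1, c2, c3⟩ <;>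
      split_ifs <;> first | ring1 | (exfalso; grind)

end Pool.Agent.Lib.MP_651af7_nt.Qp
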