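import Pool.Agent.Lib.MP_651af7_nt.Qp.Fin

/-!
Quadratic integral points on the complement of six lines in the plane, and of `2 * n + 2`
hyperplanes in projective space.
-/

namespace Pool.Agent.Lib.MP_651af7_nt.Qp.Head

open Pool.Agent.Lib.MP_651af7_nt

theorem result (l : Fin 6 → Fin 3 → ℚ)
    (hl : ∀ f : Fin 3 → Fin 6, Function.Injective f → (Matrix.of fun j => l (f j)).det ≠ 0)
    (S : Finset ℕ) :
    ∃ (d : ℕ) (Θ : MvPolynomial (Fin 3) ℚ), Θ ≠ 0 ∧ Θ.IsHomogeneous d ∧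
      ∀ (K : Type) [Field K] [NumberField K], Module.finrank ℚ K = 2 → ∀ x : Fin 3 → K,
        (∀ i, ∑ a, (l i a : K) * x a ≠ 0) →
        (∀ i j (p : ℕ), p.Prime → p ∉ S →
          padicValRat p (Algebra.norm ℚ (∑ a, (l i a : K) * x a)) =
            padicValRat p (Algebra.norm ℚ (∑ a, (l j a : K) * x a))) →
        MvPolynomial.aeval x Θ = 0 ∨
          (∃ Q : QuadraticForm ℚ (Fin 3 → ℚ), Q ≠ 0 ∧ ∀ i, Q (l i) = 0) ∧
          ∃ f g : Fin 3 → Fin 6, Function.Injective (Sum.elim f g) ∧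
            (Matrix.of fun j => crossProduct (l (f j)) (l (g j))).det = 0 ∧
            ∃ c : Fin 3 → ℚ, (∀ z : Fin 3 → ℚ, (Matrix.of fun j a =>
              (∑ b, l (f j) b * z b) * l (f j) a -
                c j * (∑ b, l (g j) b * z b) * l (g j) a).det = 0) ∧
              ∀ j, Algebra.norm ℚ (∑ a, (l (f j) a : K) * x a) =
                c j * Algebra.norm ℚ (∑ a, (l (g j) a : K) * x a) := by
  obtain ⟨d, Θ, h1, h2, h3⟩ := Qp.main (n := 2) (by simp) hl S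
  refine ⟨d, Θ, h1, h2, fun K _ _ hK x hx hv => (h3 K hK x hx hv).imp_right ?_⟩
  rintro ⟨f, g, h, c, hc, h4, h5, h6⟩
  refine ⟨?_, f, g, h, not_not.1 fun h7 => h5 ⟨rfl, _, h7, fun j =>
    ⟨dot_self_cross _ _, dot_cross_self _ _⟩⟩, c, h4, h6⟩
  by_contra h7
  obtain ⟨z, hz⟩ := Qp.jac_of_conic hl (fun Q hQ => not_not.1 fun h8 => h7 ⟨Q, h8, hQ⟩)
    ((Fintype.bijective_iff_injective_and_card _).2 ⟨h, by simp⟩) c hc
  exact hz (h4 z)

/-- The case of `2 * n + 2` hyperplanes under a Jacobian condition. -/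
theorem hyperplanes (n : ℕ) (l : Fin (2 * n + 2) → Fin (n + 1) → ℚ)
    (hl : ∀ f : Fin (n + 1) → Fin (2 * n + 2), Function.Injective f →
      (Matrix.of fun j => l (f j)).det ≠ 0)
    (hH : ∀ f g : Fin (n + 1) → Fin (2 * n + 2), Function.Injective (Sum.elim f g) →
      ∀ c : Fin (n + 1) → ℚ, (∀ j, c j ≠ 0) → ∃ z : Fin (n + 1) → ℚ, (Matrix.of fun j a =>
        (∑ b, l (f j) b * z b) * l (f j) a - c j * (∑ b, l (g j) b * z b) * l (g j) a).det ≠ 0)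
    (S : Finset ℕ) :
    ∃ (d : ℕ) (Θ : MvPolynomial (Fin (n + 1)) ℚ), Θ ≠ 0 ∧ Θ.IsHomogeneous d ∧
      ∀ (K : Type) [Field K] [NumberField K], Module.finrank ℚ K = 2 → ∀ x : Fin (n + 1) → K,
        (∀ i, ∑ a, (l i a : K) * x a ≠ 0) →
        (∀ i j (p : ℕ), p.Prime → p ∉ S →
          padicValRat p (Algebra.norm ℚ (∑ a, (l i a : K) * x a)) =
            padicValRat p (Algebra.norm ℚ (∑ a, (l j a : K) * x a))) →
        MvPolynomial.aeval x Θ = 0 := by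
  obtain ⟨d, Θ, h1, h2, h3⟩ := Qp.main (Fintype.card_fin _) hl S
  refine ⟨d, Θ, h1, h2, fun K _ _ hK x hx hv => (h3 K hK x hx hv).resolve_right ?_⟩
  rintro ⟨f, g, h, c, hc, h4, -⟩
  obtain ⟨z, hz⟩ := hH f g h c hc
  exact hz (h4 z)

end Pool.Agent.Lib.MP_651af7_nt.Qp.Head
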