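import Pool.Agent.Lib.Common.Subspace.Main

/-! The unit equation along an ultrafilter. -/

namespace Pool.Agent.Lib.MP_651af7_nt.Qp

open Finset Filter Matrix Pool.Agent.Lib.Common.Subspace

theorem prod_one (S : Finset ℕ) (hS : ∀ p ∈ S, p.Prime) {a : ℤ} (ha : a ≠ 0)
    (h : ∀ p : ℕ, p.Prime → p ∉ S → padicValInt p a = 0) :
    |(a : ℝ)| * ∏ p ∈ S, ((padicNorm p (a : ℚ) : ℚ) : ℝ) = 1 := by
  have hn : a.natAbs ≠ 0 := Int.natAbs_ne_zero.2 ha
  have h1 : a.natAbs = ∏ p ∈ S, p ^ padicValInt p a := by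
    conv_lhs => rw [← Nat.prod_factorization_pow_eq_self hn]
    rw [Finsupp.prod_of_support_subset _ (s := S) _ _ (fun _ _ => pow_zero _)]
    · exact prod_congr rfl fun p hp => by rw [Nat.factorization_def _ (hS p hp), padicValInt]
    · intro p hp
      have hp1 := Nat.prime_of_mem_primeFactors hp
      by_contra hc
      have := h p hp1 hc
      rw [padicValInt, ← Nat.factorization_def _ hp1] at this
      exact Finsupp.mem_support_iff.1 hp this
  have h2 : |(a : ℝ)| = ∏ p ∈ S, (p : ℝ) ^ padicValInt p a := by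
    rw [← Int.cast_abs, Int.abs_eq_natAbs, Int.cast_natCast, h1]
    push_cast
    rfl
  rw [h2, ← prod_mul_distrib]
  refine prod_eq_one fun p hp => ?_
  rw [padicNorm_int_eq (hS p hp) ha]
  have : (0 : ℝ) < p := by exact_mod_cast (hS p hp).pos
  exact mul_inv_cancel₀ (by positivity)

variable {κ : Type} [Fintype κ] [DecidableEq κ]

theorem upd_det (C : κ → ℤ) (k : κ) : ((1 : Matrix κ κ ℤ).updateRow k C).det = C k := by
  have h1 : C = ∑ i, C i • (1 : Matrix κ κ ℤ) i := by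
    ext i
    simp [Finset.sum_apply, Matrix.one_apply]
  conv_lhs => rw [h1]
  rw [det_updateRow_sum, det_one, smul_eq_mul, mul_one]

theorem upd_prod (C X : κ → ℤ) (k : κ) (f : ℤ → ℝ) :
    (∏ i, f (((1 : Matrix κ κ ℤ).updateRow k C *ᵥ X) i)) * f (X k) =
      f (C ⬝ᵥ X) * ∏ i, f (X i) := by
  rw [← mul_prod_erase _ _ (mem_univ k), ← mul_prod_erase _ (fun i => f (X i)) (mem_univ k)]
  have h1 : ((1 : Matrix κ κ ℤ).updateRow k C *ᵥ X) k = C ⬝ᵥ X := by
    simp [Matrix.mulVec]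
  have h2 : ∀ i ∈ univ.erase k, f (((1 : Matrix κ κ ℤ).updateRow k C *ᵥ X) i) = f (X i) := by
    intro i hi
    have : ((1 : Matrix κ κ ℤ).updateRow k C *ᵥ X) i = ((1 : Matrix κ κ ℤ) *ᵥ X) i := by
      simp only [Matrix.mulVec, updateRow_ne (ne_of_mem_erase hi)]
    rw [this, one_mulVec]
  rw [h1, prod_congr rfl h2]
  ring

omit [DecidableEq κ] in
theorem exists_prim [Nonempty κ] (u : κ → ℚ) (hu : ∀ k, u k ≠ 0) :
    ∃ (D : ℚ) (X : κ → ℤ), D ≠ 0 ∧ (∀ k, (X k : ℚ) = D * u k) ∧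
      ∀ p : ℕ, p.Prime → ∃ k, ¬ (p : ℤ) ∣ X k := by
  obtain ⟨d, hd⟩ := IsLocalization.exist_integer_multiples (nonZeroDivisors ℤ)
    (univ : Finset κ) u
  choose c hc using fun i => hd i (mem_univ i)
  have hd0 : ((d : ℤ) : ℚ) ≠ 0 := by exact_mod_cast nonZeroDivisors.coe_ne_zero d
  have hc' : ∀ i, (c i : ℚ) = (d : ℤ) * u i := fun i => by simpa using hc i
  obtain ⟨X, h1, h2⟩ := Finset.extract_gcd c (univ_nonempty (α := κ))
  have hg : ((univ.gcd c : ℤ) : ℚ) ≠ 0 := by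
    intro h0
    obtain ⟨k⟩ := ‹Nonempty κ›
    have h3 := hc' k
    rw [h1 k (mem_univ k), Int.cast_mul, h0, zero_mul] at h3
    exact mul_ne_zero hd0 (hu k) h3.symm
  refine ⟨(d : ℤ) / (univ.gcd c : ℤ), X, div_ne_zero hd0 hg, fun k => ?_, fun p hp => ?_⟩
  · have h3 := hc' k
    rw [h1 k (mem_univ k), Int.cast_mul] at h3
    field_simp
    linear_combination h3
  · by_contra hcon
    push Not at hcon
    have h3 : (p : ℤ) ∣ 1 := h2 ▸ Finset.dvd_gcd fun k _ => hcon k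
    exact hp.one_lt.ne' (Int.natCast_dvd_natCast.1 (by exact_mod_cast h3) |> Nat.dvd_one.1)

/-- A rational `S`-unit. -/
def SU (S : Finset ℕ) (u : ℚ) : Prop := u ≠ 0 ∧ ∀ p : ℕ, p.Prime → p ∉ S → padicValRat p u = 0

theorem key0 [Nontrivial κ] (S : Finset ℕ) {τ : Type} (U : Ultrafilter τ) (u : τ → κ → ℚ)
    (hu : ∀ t k, SU S (u t k)) (c : κ → ℚ) (hc : ∀ k, c k ≠ 0)
    (h : ∀ᶠ t in U, ∑ k, c k * u t k = 1) :
    ∃ w : κ → ℤ, w ≠ 0 ∧ ∀ᶠ t in U, ∑ k, (w k : ℚ) * u t k = 0 := by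
  choose D X hD hX hp using fun t => exists_prim (u t) fun k => (hu t k).1
  obtain ⟨d, C, hd, hC, -⟩ := exists_prim c hc
  have hX0 : ∀ t k, X t k ≠ 0 := fun t k h0 => by
    have := hX t k
    rw [h0, Int.cast_zero] at this
    exact mul_ne_zero (hD t) (hu t k).1 this.symm
  have hC0 : ∀ k, C k ≠ 0 := fun k h0 => by
    have := hC k
    rw [h0, Int.cast_zero] at this
    exact mul_ne_zero hd (hc k) this.symm
  suffices hs : ∃ w : κ → ℤ, w ≠ 0 ∧ ∀ᶠ t in U, w ⬝ᵥ X t = 0 by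
    obtain ⟨w, h1, h2⟩ := hs
    refine ⟨w, h1, h2.mono fun t ht => ?_⟩
    have h3 : ((w ⬝ᵥ X t : ℤ) : ℚ) = D t * ∑ k, (w k : ℚ) * u t k := by
      simp only [dotProduct, Int.cast_sum, Int.cast_mul, hX, mul_sum]
      exact sum_congr rfl fun k _ => by ring
    rw [ht, Int.cast_zero] at h3
    exact (mul_eq_zero.1 h3.symm).resolve_left (hD t)
  have hvD : ∀ t (p : ℕ), p.Prime → p ∉ S → padicValRat p (D t) = 0 := fun t p h1 h2 => by
    have := Fact.mk h1
    obtain ⟨k, hk⟩ := hp t p h1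
    have h3 := congrArg (padicValRat p) (hX t k)
    rw [padicValRat.mul (hD t) (hu t k).1, (hu t k).2 p h1 h2, padicValRat.of_int,
      padicValInt.eq_zero_of_not_dvd hk] at h3
    simpa using h3.symm
  let S' : Finset ℕ := S.filter Nat.Prime ∪ (d.num.natAbs * d.den).primeFactors
  have hS' : ∀ p ∈ S', p.Prime := fun p hp => by
    rcases mem_union.1 hp with h1 | h1
    exacts [(mem_filter.1 h1).2, Nat.prime_of_mem_primeFactors h1]
  have hn : ∀ p : ℕ, p.Prime → p ∉ S' → p ∉ S ∧ padicValRat p d = 0 := fun p h1 h2 => by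
    refine ⟨fun h3 => h2 (mem_union_left _ (mem_filter.2 ⟨h3, h1⟩)), ?_⟩
    have h3 : ¬ p ∣ d.num.natAbs * d.den := fun h3 => h2 (mem_union_right _
      (Nat.mem_primeFactors.2 ⟨h1, h3, mul_ne_zero (by simpa using hd) d.den_nz⟩))
    rw [padicValRat, padicValInt, padicValNat.eq_zero_of_not_dvd fun h4 => h3 (h4.mul_right _),
      padicValNat.eq_zero_of_not_dvd fun h4 => h3 (h4.mul_left _)]
    simp
  have hXu : ∀ t k, |(X t k : ℝ)| * ∏ p ∈ S', ((padicNorm p (X t k : ℚ) : ℚ) : ℝ) = 1 := by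
    intro t k
    refine prod_one S' hS' (hX0 t k) fun p h1 h2 => ?_
    have := Fact.mk h1
    have h3 := congrArg (padicValRat p) (hX t k)
    rw [padicValRat.mul (hD t) (hu t k).1, (hu t k).2 p h1 (hn p h1 h2).1, padicValRat.of_int,
      hvD t p h1 (hn p h1 h2).1] at h3
    exact_mod_cast h3
  have hZ : ∀ᶠ t in U, |((C ⬝ᵥ X t : ℤ) : ℝ)| *
      ∏ p ∈ S', ((padicNorm p ((C ⬝ᵥ X t : ℤ) : ℚ) : ℚ) : ℝ) = 1 := h.mono fun t ht => by
    have h3 : ((C ⬝ᵥ X t : ℤ) : ℚ) = d * D t := by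
      simp only [dotProduct, Int.cast_sum, Int.cast_mul, hX, hC]
      rw [← mul_one (d * D t), ← ht, mul_sum]
      exact sum_congr rfl fun k _ => by ring
    refine prod_one S' hS' (fun h0 => ?_) fun p h1 h2 => ?_
    · rw [h0, Int.cast_zero] at h3
      exact mul_ne_zero hd (hD t) h3.symm
    · have := Fact.mk h1
      have h4 := congrArg (padicValRat p) h3
      rw [padicValRat.mul hd (hD t), (hn p h1 h2).2, padicValRat.of_int,
        hvD t p h1 (hn p h1 h2).1] at h4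
      exact_mod_cast h4
  obtain ⟨k0, hk0⟩ : ∃ k0, ∀ᶠ t in U, ∀ k, |X t k| ≤ |X t k0| :=
    Ultrafilter.eventually_exists_iff.1 (Eventually.of_forall fun t =>
      (Finite.exists_max fun k => |X t k|))
  by_cases hq : Tendsto (fun t => |X t k0|) U atTop
  · have hk : ∀ p : ℕ, ∃ k, p.Prime → ∀ᶠ t in U, ¬ (p : ℤ) ∣ X t k := fun p => by
      by_cases h1 : p.Prime
      · obtain ⟨k, hk⟩ := Ultrafilter.eventually_exists_iff.1
          (Eventually.of_forall (f := U) fun t => hp t p h1)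
        exact ⟨k, fun _ => hk⟩
      · exact ⟨k0, fun h2 => (h1 h2).elim⟩
    choose kp hkp using hk
    have hpos : ∀ t, (0 : ℝ) < |(X t k0 : ℝ)| := fun t =>
      abs_pos.2 (Int.cast_ne_zero.2 (hX0 t k0))
    refine subspace S' hS' ((1 : Matrix κ κ ℤ).updateRow k0 C) (by rw [upd_det]; exact hC0 _)
      (fun p => (1 : Matrix κ κ ℤ).updateRow (kp p) C) (fun p _ => by rw [upd_det]; exact hC0 _)
      U (fun t => Real.log |(X t k0 : ℝ)|) ?_ X 1 1 one_pos ?_ ?_
    · refine Real.tendsto_log_atTop.comp ?_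
      have := (tendsto_intCast_atTop_atTop (R := ℝ)).comp hq
      simpa only [Function.comp_def, Int.cast_abs] using this
    · filter_upwards [hk0] with t ht i
      rw [one_mul, Real.exp_log (hpos t)]
      exact_mod_cast ht i
    · have ha : ∀ᶠ t in U, ∀ p ∈ S', ¬ (p : ℤ) ∣ X t (kp p) :=
        (eventually_all_finset S').2 fun p h1 => hkp p (hS' p h1)
      filter_upwards [ha, hZ] with t h1 h2
      have e1 := upd_prod C (X t) k0 fun a => |(a : ℝ)|
      have e2 : ∀ p ∈ S', ∏ i, ((padicNorm p (((((1 : Matrix κ κ ℤ).updateRow (kp p) C) *ᵥ X t) i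
          : ℤ) : ℚ) : ℚ) : ℝ) = ((padicNorm p ((C ⬝ᵥ X t : ℤ) : ℚ) : ℚ) : ℝ) *
            ∏ i, ((padicNorm p (X t i : ℚ) : ℚ) : ℝ) := fun p h3 => by
        have := Fact.mk (hS' p h3)
        have e := upd_prod C (X t) (kp p) fun a => ((padicNorm p (a : ℚ) : ℚ) : ℝ)
        rwa [(padicNorm.int_eq_one_iff _).2 (h1 p h3), Rat.cast_one, mul_one] at e
      rw [prod_congr rfl e2, prod_mul_distrib, Finset.prod_comm, neg_mul, one_mul, Real.exp_neg,
        Real.exp_log (hpos t), eq_div_of_mul_eq (hpos t).ne' e1]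
      have e3 : (∏ i, |(X t i : ℝ)|) * ∏ i, ∏ p ∈ S', ((padicNorm p (X t i : ℚ) : ℚ) : ℝ) = 1 := by
        rw [← prod_mul_distrib]
        exact prod_eq_one fun i _ => hXu t i
      rw [div_mul_eq_mul_div, mul_mul_mul_comm, h2, e3, mul_one, one_div]
  · rw [tendsto_atTop] at hq
    push Not at hq
    obtain ⟨B, hB⟩ := hq
    have h1 : ∀ᶠ t in U, ∃ Y ∈ Set.pi Set.univ fun _ : κ => Set.Icc (-B) B, X t = Y := by
      filter_upwards [hk0, hB] with t h2 h3
      exact ⟨X t, fun k _ => abs_le.1 ((h2 k).trans h3.le), rfl⟩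
    obtain ⟨Y, -, hY⟩ := (Ultrafilter.eventually_exists_mem_iff
      (Set.Finite.pi fun _ => Set.finite_Icc _ _)).1 h1
    obtain ⟨k, k', hk⟩ := exists_pair_ne κ
    obtain ⟨t0, ht0⟩ := hY.exists
    refine ⟨Pi.single k (Y k') - Pi.single k' (Y k), fun h0 => ?_, hY.mono fun t ht => ?_⟩
    · have := congrFun h0 k
      simp only [Pi.sub_apply, Pi.single_eq_same, Pi.single_eq_of_ne hk, sub_zero] at this
      exact hX0 t0 k' (ht0 ▸ this)
    · rw [ht, sub_dotProduct, single_dotProduct, single_dotProduct]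
      ring

end Pool.Agent.Lib.MP_651af7_nt.Qp
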