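import Mathlib

/-! Spaces of functions whose maximum is always attained twice. -/

namespace Pool.Agent.Lib.MP_651af7_nt.Qp

open Finset

variable {ι : Type} [Fintype ι]

/-- An integer vector killed by the annihilator of a lattice has a multiple in the lattice. -/
theorem dual_sat (H : AddSubgroup (ι → ℤ)) (v : ι → ℤ)
    (h : ∀ φ : ι → ℚ, (∀ a ∈ H, ∑ i, φ i * a i = 0) → ∑ i, φ i * v i = 0) :
    ∃ m : ℕ, 0 < m ∧ m • v ∈ H := by
  classical
  let cs : (ι → ℤ) → ι → ℚ := fun a i => a i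
  have h1 : cs v ∈ Submodule.span ℚ (cs '' H) := by
    by_contra hc
    obtain ⟨f, f1, f2⟩ := Submodule.exists_dual_map_eq_bot_of_notMem hc inferInstance
    have e : ∀ a, f (cs a) = ∑ i, f (fun j => if i = j then 1 else 0) * a i := fun a => by
      rw [LinearMap.pi_apply_eq_sum_univ]
      exact sum_congr rfl fun i _ => mul_comm _ _
    refine f1 ((e v).trans (h _ fun a ha => (e a).symm.trans ?_))
    exact (Submodule.eq_bot_iff _).1 f2 _ ⟨_, Submodule.subset_span ⟨a, ha, rfl⟩, rfl⟩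
  have h2 : ∀ w ∈ Submodule.span ℚ (cs '' H), ∃ m : ℕ, 0 < m ∧ ∃ a ∈ H, ∀ i,
      (a i : ℚ) = m * w i := by
    intro w hw
    induction hw using Submodule.span_induction with
    | mem w hw =>
      obtain ⟨a, ha, rfl⟩ := hw
      exact ⟨1, one_pos, a, ha, fun i => by simp [cs]⟩
    | zero => exact ⟨1, one_pos, 0, zero_mem _, fun i => by simp⟩
    | add w w' _ _ hw hw' =>
      obtain ⟨m, h1, a, h2, h3⟩ := hw
      obtain ⟨m', h1', a', h2', h3'⟩ := hw'
      refine ⟨m * m', mul_pos h1 h1', m' • a + m • a',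
        add_mem (nsmul_mem h2 _) (nsmul_mem h2' _), fun i => ?_⟩
      rw [Pi.add_apply, Pi.add_apply, Pi.smul_apply, Pi.smul_apply, nsmul_eq_mul, nsmul_eq_mul]
      push_cast
      rw [h3, h3']
      ring
    | smul c w _ hw =>
      obtain ⟨m, h1, a, h2, h3⟩ := hw
      refine ⟨m * c.den, mul_pos h1 c.pos, c.num • a, zsmul_mem h2 _, fun i => ?_⟩
      simp only [Pi.smul_apply, smul_eq_mul]
      push_cast
      rw [h3, ← Rat.mul_den_eq_num]
      ring
  obtain ⟨m, hm, a, ha, e⟩ := h2 _ h1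
  refine ⟨m, hm, ?_⟩
  have : m • v = a := funext fun i => by
    have := e i
    simp only [cs] at this
    simp only [Pi.smul_apply, nsmul_eq_mul]
    exact_mod_cast this.symm
  rwa [this]

/-- The maximum of a function of the space is attained at an index with a twin. -/
theorem twin_max (Φ : Submodule ℚ (ι → ℚ)) (hP : ∀ φ ∈ Φ, ∀ i, ∃ j ≠ i, φ i ≤ φ j) :
    ∀ (k : ℕ), ∀ φ ∈ Φ, ∀ i, (∀ j, φ j ≤ φ i) → (univ.filter fun j => φ j = φ i).card ≤ k →
      ∃ a b, a ≠ b ∧ φ a = φ i ∧ ∀ ψ ∈ Φ, ψ a = ψ b := by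
  intro k
  induction k with
  | zero =>
    intro φ _ i _ h
    exact absurd (card_pos.2 ⟨i, by simp⟩) (not_lt.2 h)
  | succ k ih =>
    intro φ hφ i hi h
    obtain ⟨j, hj, hij⟩ := hP φ hφ i
    by_cases hc : ∀ ψ ∈ Φ, ψ i = ψ j
    · exact ⟨i, j, hj.symm, rfl, hc⟩
    push Not at hc
    obtain ⟨ψ, hψ, hne⟩ := hc
    have hev : ∀ᶠ ε : ℚ in nhdsWithin 0 (Set.Ioi 0), ∀ a, φ a < φ i →
        φ a + ε * ψ a < φ i + ε * ψ i := by
      refine Filter.Eventually.filter_mono nhdsWithin_le_nhds (Filter.eventually_all.2 fun a => ?_)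
      by_cases ha : φ a < φ i
      · have h1 : Continuous fun ε : ℚ => φ a + ε * ψ a := by fun_prop
        have h2 : Continuous fun ε : ℚ => φ i + ε * ψ i := by fun_prop
        exact (h1.continuousAt.eventually_lt h2.continuousAt (by simpa using ha)).mono
          fun _ h _ => h
      · exact Filter.Eventually.of_forall fun _ h => (ha h).elim
    obtain ⟨ε, h1, h2⟩ := (hev.and self_mem_nhdsWithin).exists
    have h3 : 0 < ε := h2
    have : Nonempty ι := ⟨i⟩
    obtain ⟨i', hi'⟩ := Finite.exists_max fun a => φ a + ε * ψ a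
    have h4 : ∀ a, φ a + ε * ψ a = φ i' + ε * ψ i' → φ a = φ i := fun a ha => by
      refine (hi a).antisymm (not_lt.1 fun h5 => ?_)
      exact absurd (h1 a h5) (not_lt.2 (ha ▸ hi' i))
    obtain ⟨a, b, hab, h5, h6⟩ := ih (φ + ε • ψ) (add_mem hφ (Φ.smul_mem _ hψ)) i' hi' (by
      refine Nat.lt_succ_iff.1 (lt_of_lt_of_le (card_lt_card ?_) h)
      refine (ssubset_iff_of_subset fun a ha => ?_).2 ?_
      · exact mem_filter.2 ⟨mem_univ _, h4 a (mem_filter.1 ha).2⟩
      · by_contra hc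
        push Not at hc
        have e1 := (mem_filter.1 (hc i (by simp))).2
        have e2 := (mem_filter.1 (hc j (by simp [(hi j).antisymm hij]))).2
        simp only [Pi.add_apply, Pi.smul_apply, smul_eq_mul] at e1 e2
        have e3 : ε * ψ i = ε * ψ j := by linarith [(hi j).antisymm hij]
        exact hne (mul_left_cancel₀ h3.ne' e3))
    exact ⟨a, b, hab, h4 a h5, h6⟩

theorem twin_cases (n : ℕ) (Φ : Submodule ℚ (ι → ℚ)) (hP : ∀ φ ∈ Φ, ∀ i, ∃ j ≠ i, φ i ≤ φ j) :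
    (∃ B : Finset ι, B.card ≤ n ∧ ∀ φ ∈ Φ, (∀ b ∈ B, φ b = 0) → φ = 0) ∨
      ∃ f g : Fin (n + 1) → ι, Function.Injective (Sum.elim f g) ∧
        ∀ j, ∀ φ ∈ Φ, φ (f j) = φ (g j) := by
  classical
  let s : Setoid ι := ⟨fun a b => ∀ φ ∈ Φ, φ a = φ b, fun _ _ _ => rfl,
    fun h φ hφ => (h φ hφ).symm, fun h h' φ hφ => (h φ hφ).trans (h' φ hφ)⟩
  let r : ι → ι := fun i => (Quotient.mk s i).out
  have hr : ∀ i, s (r i) i := fun i => Quotient.mk_out (s := s) i
  have hr2 : ∀ a b, s a b → r a = r b := fun a b h => congrArg Quotient.out (Quotient.sound h)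
  let B : Finset ι := (univ.filter fun a => ∃ b, a ≠ b ∧ s a b).image r
  by_cases hB : B.card ≤ n
  · refine Or.inl ⟨B, hB, fun φ hφ h0 => ?_⟩
    have key : ∀ ψ ∈ Φ, (∀ b ∈ B, ψ b = 0) → ∀ i, ψ i ≤ 0 := fun ψ hψ h1 i => by
      have : Nonempty ι := ⟨i⟩
      obtain ⟨i', hi'⟩ := Finite.exists_max ψ
      obtain ⟨a, b, h2, h3, h4⟩ := twin_max Φ hP _ ψ hψ i' hi' le_rfl
      have h5 := h1 (r a) (mem_image_of_mem r (mem_filter.2 ⟨mem_univ _, b, h2, h4⟩))
      rw [hr a ψ hψ, h3] at h5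
      exact h5 ▸ hi' i
    funext i
    have h1 := key φ hφ h0 i
    have h2 := key (-φ) (neg_mem hφ) (fun b hb => by simp [h0 b hb]) i
    exact h1.antisymm (neg_nonpos.1 h2)
  · have hf : ∃ f : Fin (n + 1) → ι, Function.Injective f ∧ ∀ j, f j ∈ B := by
      obtain ⟨t, h1, h2⟩ := exists_subset_card_eq (s := B) (n := n + 1) (by omega)
      exact ⟨fun j => (t.equivFinOfCardEq h2).symm j,
        Subtype.val_injective.comp (Equiv.injective _), fun j => h1 (Subtype.prop _)⟩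
    obtain ⟨f, f1, f2⟩ := hf
    have hrB : ∀ b ∈ B, r b = b := fun b hb => by
      obtain ⟨a, -, rfl⟩ := mem_image.1 hb
      exact hr2 _ _ (hr a)
    have hg : ∀ j, ∃ c, f j ≠ c ∧ s (f j) c := fun j => by
      obtain ⟨a, ha, e⟩ := mem_image.1 (f2 j)
      obtain ⟨b, h1, h2⟩ := (mem_filter.1 ha).2
      by_cases h3 : f j = a
      · exact ⟨b, h3 ▸ h1, h3 ▸ h2⟩
      · exact ⟨a, h3, e ▸ hr a⟩
    choose g g1 g2 using hg
    have hinj : ∀ i j, s (f i) (f j) → i = j := fun i j h =>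
      f1 ((hrB _ (f2 i)).symm.trans ((hr2 _ _ h).trans (hrB _ (f2 j))))
    refine Or.inr ⟨f, g, Function.Injective.sumElim f1 (fun i j h => hinj i j ?_) fun i j h => ?_,
      g2⟩
    · exact s.trans (g2 i) (h ▸ s.symm (g2 j))
    · have := hinj i j (h ▸ s.symm (g2 j))
      exact g1 j (this ▸ h)

end Pool.Agent.Lib.MP_651af7_nt.Qp
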