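import Pool.Agent.Lib.MP_651af7_nt.Qp.Ult

/-! Valuations above a prime that tends to infinity. -/

namespace Pool.Agent.Lib.MP_651af7_nt.Qp

open Finset Filter

theorem exists_above (p : ℕ) (hp : p.Prime) :
    ∃ V : ValuationSubring ℂ, ∀ c : ℚ, (c : ℂ) ∈ V ↔ 0 ≤ padicValRat p c := by
  have := Fact.mk hp
  have hp0 : (p : ℚ) ≠ 0 := Nat.cast_ne_zero.2 hp.ne_zero
  have hm : ∀ c d : ℚ, 0 ≤ padicValRat p c → 0 ≤ padicValRat p d → 0 ≤ padicValRat p (c * d) := by
    intro c d hc hd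
    by_cases h : c * d = 0
    · simp [h]
    · rw [padicValRat.mul (left_ne_zero_of_mul h) (right_ne_zero_of_mul h)]
      exact add_nonneg hc hd
  let A : Subring ℂ :=
    { carrier := {z | ∃ c : ℚ, 0 ≤ padicValRat p c ∧ z = c}
      zero_mem' := ⟨0, by simp, by simp⟩
      one_mem' := ⟨1, by simp, by simp⟩
      neg_mem' := by
        rintro _ ⟨c, h, rfl⟩
        exact ⟨-c, by simpa using h, by simp⟩
      mul_mem' := by
        rintro _ _ ⟨c, h, rfl⟩ ⟨d, h', rfl⟩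
        exact ⟨c * d, hm c d h h', by simp⟩
      add_mem' := by
        rintro _ _ ⟨c, h, rfl⟩ ⟨d, h', rfl⟩
        refine ⟨c + d, ?_, by simp⟩
        by_cases h0 : c + d = 0
        · simp [h0]
        · exact (le_min h h').trans (padicValRat.min_le_padicValRat_add h0) }
  let q : A := ⟨p, p, by simp [padicValRat.self hp.one_lt], by simp⟩
  have hI : Ideal.span {q} ≠ ⊤ := fun h => by
    obtain ⟨⟨_, c, h1, rfl⟩, h2⟩ := Ideal.mem_span_singleton'.1 ((Ideal.eq_top_iff_one _).1 h)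
    have h3 : (c : ℂ) * p = 1 := congrArg Subtype.val h2
    have h4 : c * p = 1 := by exact_mod_cast h3
    have h5 := congrArg (padicValRat p) h4
    rw [padicValRat.mul (left_ne_zero_of_mul_eq_one h4) hp0, padicValRat.self hp.one_lt,
      padicValRat.one] at h5
    omega
  obtain ⟨V, h1, h2⟩ := Ideal.image_subset_nonunits_valuationSubring _ hI
  refine ⟨V, fun c => ⟨fun hc => not_lt.1 fun h3 => ?_, fun hc => h1 ⟨c, hc, rfl⟩⟩⟩
  have hc0 : c ≠ 0 := fun h => by simp [h] at h3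
  have h4 : V.valuation p < 1 := h2 ⟨q, Ideal.subset_span rfl, rfl⟩
  have h5 : V.valuation (((c * p)⁻¹ : ℚ) : ℂ) ≤ 1 := (V.valuation_le_one_iff _).2 (h1 ⟨_, by
    rw [padicValRat.inv, padicValRat.mul hc0 hp0, padicValRat.self hp.one_lt]
    omega, rfl⟩)
  have h6 := (mul_le_mul' h5 (mul_le_mul_left ((V.valuation_le_one_iff _).2 hc)
    (V.valuation p))).trans_lt (by simpa using h4)
  rw [← map_mul, ← map_mul] at h6
  push_cast at h6
  rw [inv_mul_cancel₀ (by exact_mod_cast mul_ne_zero hc0 hp0), map_one] at h6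
  exact h6.false

theorem val_le {p : ℕ} {c : ℚ} (hc : c ≠ 0) (h : padicValRat p c ≠ 0) :
    p ≤ c.num.natAbs * c.den := by
  refine Nat.le_of_dvd (Nat.pos_of_ne_zero (mul_ne_zero (by simpa using hc) c.den_nz)) ?_
  by_contra h3
  apply h
  rw [padicValRat, padicValInt, padicValNat.eq_zero_of_not_dvd fun h4 => h3 (h4.mul_right _),
    padicValNat.eq_zero_of_not_dvd fun h4 => h3 (h4.mul_left _)]
  simp

variable {τ : Type} (U : Ultrafilter τ)

theorem gm_surj (g : Om U) : ∃ z, g = gm U z := Germ.inductionOn g fun z => ⟨z, rfl⟩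

theorem gm_inv (z : τ → ℂ) : (gm U z)⁻¹ = gm U fun t => (z t)⁻¹ := rfl

theorem gu_of_val (S : Finset ℕ) (ρ : τ → ℚ) (h0 : ∀ᶠ t in U, ρ t ≠ 0)
    (h : ∀ V : ValuationSubring (Om U), (∀ c : ℚ, V.valuation c ≤ 1) →
      (∀ g, GU U S g → V.valuation g = 1) → V.valuation (gm U fun t => (ρ t : ℂ)) = 1) :
    ∃ S', S ⊆ S' ∧ GU U S' (gm U fun t => (ρ t : ℂ)) := by
  classical
  let P : τ → Finset ℕ := fun t => (range ((ρ t).num.natAbs * (ρ t).den + 1)).filter
    fun p => p.Prime ∧ p ∉ S ∧ padicValRat p (ρ t) ≠ 0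
  by_cases hB : ∃ B, ∀ᶠ t in U, (P t).sup id ≤ B
  · obtain ⟨B, hB⟩ := hB
    have h1 : ∀ᶠ t in U, SU (S ∪ range (B + 1)) (ρ t) := by
      filter_upwards [h0, hB] with t h1 h2
      refine ⟨h1, fun p h3 h4 => by_contra fun h5 => h4 (mem_union.2 ?_)⟩
      by_cases h6 : p ∈ S
      · exact Or.inl h6
      · exact Or.inr (mem_range.2 (Nat.lt_succ_of_le ((le_sup (f := id) (mem_filter.2
          ⟨mem_range.2 (Nat.lt_succ_of_le (val_le h1 h5)), h3, h6, h5⟩)).trans h2)))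
    refine ⟨S ∪ range (B + 1), subset_union_left,
      fun t => if SU (S ∪ range (B + 1)) (ρ t) then ρ t else 1, fun t => ?_, ?_⟩
    · dsimp only
      split_ifs with h2
      exacts [h2, su_one _]
    · exact (gm_eq U).2 (h1.mono fun t ht => by simp only [if_pos ht])
  exfalso
  push Not at hB
  have hB' : ∀ B, ∀ᶠ t in U, B < (P t).sup id := fun B => by simpa using hB B
  have hP : ∀ᶠ t in U, (P t).sup id ∈ P t := (hB' 0).mono fun t ht => by
    obtain ⟨p, h1, h2⟩ := exists_mem_eq_sup (P t) (nonempty_iff_ne_empty.2 fun e => by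
      simp [e] at ht) id
    exact h2 ▸ h1
  have hV : ∀ p : ℕ, ∃ V : ValuationSubring ℂ, p.Prime →
      ∀ c : ℚ, (c : ℂ) ∈ V ↔ 0 ≤ padicValRat p c := fun p => by
    by_cases hp : p.Prime
    · exact (exists_above p hp).imp fun _ h _ => h
    · exact ⟨⊤, fun h => (hp h).elim⟩
  choose V hV using hV
  let W : ValuationSubring (Om U) :=
    { carrier := {g | ∃ z, g = gm U z ∧ ∀ᶠ t in U, z t ∈ V ((P t).sup id)}
      zero_mem' := ⟨0, (map_zero _).symm, Eventually.of_forall fun _ => zero_mem _⟩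
      one_mem' := ⟨1, (map_one _).symm, Eventually.of_forall fun _ => one_mem _⟩
      neg_mem' := by
        rintro _ ⟨z, rfl, h⟩
        exact ⟨-z, (map_neg _ _).symm, h.mono fun _ h => neg_mem h⟩
      mul_mem' := by
        rintro _ _ ⟨z, rfl, h⟩ ⟨z', rfl, h'⟩
        exact ⟨z * z', (map_mul _ _ _).symm, (h.and h').mono fun _ h => mul_mem h.1 h.2⟩
      add_mem' := by
        rintro _ _ ⟨z, rfl, h⟩ ⟨z', rfl, h'⟩
        exact ⟨z + z', (map_add _ _ _).symm, (h.and h').mono fun _ h => add_mem h.1 h.2⟩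
      mem_or_inv_mem' := fun g => by
        obtain ⟨z, rfl⟩ := gm_surj U g
        exact (Ultrafilter.eventually_or.1 (Eventually.of_forall fun t =>
          (V ((P t).sup id)).mem_or_inv_mem (z t))).imp (fun h => ⟨z, rfl, h⟩)
            fun h => ⟨_, gm_inv U z, h⟩ }
  have hW : ∀ u : τ → ℚ, (gm U fun t => (u t : ℂ)) ∈ W ↔
      ∀ᶠ t in U, 0 ≤ padicValRat ((P t).sup id) (u t) := fun u => by
    constructor
    · rintro ⟨z, h1, h2⟩
      filter_upwards [hP, (gm_eq U).1 h1, h2] with t h3 h4 h5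
      exact (hV _ (mem_filter.1 h3).2.1 _).1 (h4 ▸ h5)
    · intro h1
      exact ⟨_, rfl, (hP.and h1).mono fun t h => (hV _ (mem_filter.1 h.1).2.1 _).2 h.2⟩
  have hW' : ∀ u : τ → ℚ, (gm U fun t => (u t : ℂ))⁻¹ ∈ W ↔
      ∀ᶠ t in U, 0 ≤ padicValRat ((P t).sup id) (u t)⁻¹ := fun u => by
    rw [← hW, gm_inv]
    simp only [Rat.cast_inv]
  have h1 := h W (fun c => ?_) ?_
  · have h2 := (hW ρ).1 ((W.valuation_le_one_iff _).1 h1.le)
    have h3 := (hW' ρ).1 ((W.valuation_le_one_iff _).1 (by rw [map_inv₀, h1, inv_one]))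
    obtain ⟨t, h4, h5, h6⟩ := (hP.and (h2.and h3)).exists
    have := Fact.mk (mem_filter.1 h4).2.1
    rw [padicValRat.inv] at h6
    exact (mem_filter.1 h4).2.2.2 (by omega)
  · rw [W.valuation_le_one_iff, gm_rat, hW fun _ => c]
    refine (hB' (c.num.natAbs * c.den)).mono fun t ht => ?_
    by_cases hc : c = 0
    · simp [hc]
    · exact (not_not.1 fun h => not_le.2 ht (val_le hc h)).ge
  · rintro _ ⟨u, hu, rfl⟩
    have h2 : ∀ᶠ t in U, padicValRat ((P t).sup id) (u t) = 0 :=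
      hP.mono fun t ht => (hu t).2 _ (mem_filter.1 ht).2.1 (mem_filter.1 ht).2.2.1
    have h3 := (W.valuation_le_one_iff _).2 ((hW u).2 (h2.mono fun t ht => ht.ge))
    have h4 := (W.valuation_le_one_iff _).2 ((hW' u).2 ((hP.and h2).mono fun t ht => by
      have := Fact.mk (mem_filter.1 ht.1).2.1
      rw [padicValRat.inv, ht.2, neg_zero]))
    have h5 : (gm U fun t => (u t : ℂ)) ≠ 0 := fun e => by
      rw [← map_zero (gm U), gm_eq] at e
      obtain ⟨t, ht⟩ := e.exists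
      exact (hu t).1 (Rat.cast_eq_zero.1 ht)
    rw [map_inv₀, inv_le_one₀ (zero_lt_iff.2 ((map_ne_zero _).2 h5))] at h4
    exact h3.antisymm h4

end Pool.Agent.Lib.MP_651af7_nt.Qp
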