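import Pool.Agent.Lib.MP_651af7_nt.Qp.Gr

/-! The level patterns of a weight vector. -/

namespace Pool.Agent.Lib.MP_651af7_nt.Qp

open Finset

variable {ι Ω : Type} [Fintype ι] [DecidableEq ι] [Field Ω] [CharZero Ω]
  {l : ι → Fin 3 → ℚ} {q : ι → Fin 6 → ℚ} {N : ι → Ω} {φ : ι → ℚ}

/-- The meeting point attached to four indices. -/
def sv (l : ι → Fin 3 → ℚ) (σ : Fin 4 → ι) : Fin 3 → ℚ :=
  mt (l (σ 0)) (l (σ 1)) (l (σ 2)) (l (σ 3))

/-- The dual family of conics. -/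
def Du (l : ι → Fin 3 → ℚ) (q : ι → Fin 6 → ℚ) : Prop :=
  ∀ i j, ev (q i) (l j) = if i = j then 1 else 0

omit [Fintype ι] [DecidableEq ι] in
theorem bk_ne (hl : GP l) {i j k : ι} (h1 : i ≠ j) (h2 : i ≠ k) (h3 : j ≠ k) :
    bk (l i) (l j) (l k) ≠ 0 := by
  have := hl ![i, j, k] (by
    intro a b h
    fin_cases a <;> fin_cases b <;> simp_all)
  intro e
  apply this
  rw [Matrix.det_fin_three, ← e, bk]
  simp only [Matrix.of_apply, Matrix.cons_val]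
  ring

theorem bk_cast (u v p : Fin 3 → ℚ) : bk (fun a => (u a : Ω)) (fun a => (v a : Ω))
    (fun a => (p a : Ω)) = (bk u v p : ℚ) := by
  simp [bk]

theorem mt_cast (u v p r : Fin 3 → ℚ) : mt (fun a => (u a : Ω)) (fun a => (v a : Ω))
    (fun a => (p a : Ω)) (fun a => (r a : Ω)) = fun a => ((mt u v p r a : ℚ) : Ω) := by
  funext a
  fin_cases a <;> simp [mt, cr]

theorem pol_ne (hc : Fintype.card ι = 6) (hl : GP l) (hq : Du l q) {e m n : ι} (h1 : e ≠ m)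
    (h2 : e ≠ n) (h3 : m ≠ n) : pol (q e) (l m) (l n) ≠ 0 := by
  intro h
  have h4 : (univ \ {e, m, n} : Finset ι).card = 3 := by
    rw [card_univ_sdiff, hc, card_eq_three.2 ⟨e, m, n, h1, h2, h3, rfl⟩]
  obtain ⟨a, b, c, h5, h6, h7, h8⟩ := card_eq_three.1 h4
  have h9 : ∀ i ∈ ({a, b, c} : Finset ι), e ≠ i ∧ m ≠ i ∧ n ≠ i := fun i hi => by
    rw [← h8] at hi
    simpa [eq_comm] using hi
  obtain ⟨a1, a2, a3⟩ := h9 a (by simp)
  obtain ⟨b1, b2, b3⟩ := h9 b (by simp)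
  obtain ⟨c1, c2, c3⟩ := h9 c (by simp)
  have h0 : ∀ i, e ≠ i → ev (q e) (l i) = 0 := fun i hi => by rw [hq, if_neg hi]
  have := five (h0 m h1) (h0 n h2) (h0 a a1) (h0 b b1) (h0 c c1) h (bk_ne hl h3 a2 a3)
    (bk_ne hl h3 b2 b3) (bk_ne hl h3 c2 c3) (bk_ne hl h5 h6 h7)
  have h10 := hq e e
  simp [this, ev] at h10

theorem ev_sv_ne (hc : Fintype.card ι = 6) (hl : GP l) (hq : Du l q) {σ : Fin 4 → ι}
    (hσ : Function.Injective σ) (e : ι) : ev (q e) (sv l σ) ≠ 0 := by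
  have h : ∀ a b c d : Fin 4, a ≠ b → a ≠ c → a ≠ d → b ≠ c → b ≠ d → c ≠ d → e ≠ σ c → e ≠ σ d →
      ev (q e) (mt (l (σ a)) (l (σ b)) (l (σ c)) (l (σ d))) ≠ 0 := by
    intro a b c d h1 h2 h3 h4 h5 h6 h7 h8
    rw [ev_mt, hq, hq, if_neg h7, if_neg h8, mul_zero, mul_zero, add_zero, zero_sub, neg_ne_zero]
    exact mul_ne_zero (mul_ne_zero (bk_ne hl (hσ.ne h1) (hσ.ne h3) (hσ.ne h5))
      (bk_ne hl (hσ.ne h1) (hσ.ne h2) (hσ.ne h4))) (pol_ne hc hl hq h7 h8 (hσ.ne h6))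
  by_cases h1 : e ≠ σ 2 ∧ e ≠ σ 3
  · exact h 0 1 2 3 (by decide) (by decide) (by decide) (by decide) (by decide) (by decide)
      h1.1 h1.2
  · rw [sv, ev_mt']
    refine h 2 3 0 1 (by decide) (by decide) (by decide) (by decide) (by decide) (by decide)
      ?_ ?_ <;> rintro rfl <;> exact h1 ⟨hσ.ne (by decide), hσ.ne (by decide)⟩

theorem ev_at (hq : Du l q) (α : ι → Ω) (j : ι) : ev (cmb q α) (fun a => (l j a : Ω)) = α j := by
  rw [ev_cmb, sum_eq_single j (fun i _ h => by rw [hq, if_neg h]; simp) (by simp), hq]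
  simp

/-- A fixed relation between two norms. -/
def Rt (l : ι → Fin 3 → ℚ) (q : ι → Fin 6 → ℚ) (N : ι → Ω) (a b : ι) : Prop :=
  ∃ σ : Fin 4 → ι, Function.Injective σ ∧
    N a * (ev (q a) (sv l σ) : ℚ) + N b * (ev (q b) (sv l σ) : ℚ) = 0

/-- The two possible outcomes. -/
def Out (l : ι → Fin 3 → ℚ) (q : ι → Fin 6 → ℚ) (N : ι → Ω) : Prop :=
  (∃ σ : Fin 4 → ι, Function.Injective σ ∧ ∑ i, N i * (ev (q i) (sv l σ) : ℚ) = 0) ∨
    ∃ f g : Fin 3 → ι, Function.Injective (Sum.elim f g) ∧ ∀ j, Rt l q N (f j) (g j)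

theorem two1 (hl : GP l) (hq : Du l q) (hN : ∀ i, N i ≠ 0) (hI : Ind N)
    (hφ : φ ∈ ann (rel _ hN)) (h0 : dd (cmb q N) (cmb q N) (cmb q N) = 0) (e : Fin 6 ≃ ι)
    {M : ℚ} (h1 : φ (e 1) = φ (e 0)) (hM : M < φ (e 0)) (h2 : φ (e 2) ≤ M) (h3 : φ (e 3) ≤ M)
    (h4 : φ (e 4) ≤ M) (h5 : φ (e 5) ≤ M) : ∃ σ : Fin 4 → ι, Function.Injective σ ∧
      N (e 0) * (ev (q (e 0)) (sv l σ) : ℚ) + N (e 1) * (ev (q (e 1)) (sv l σ) : ℚ) = 0 ∧
      ∑ i, lev N φ M i * (ev (q i) (sv l σ) : ℚ) = 0 := by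
  obtain ⟨t1, t2⟩ := top hN hI hφ q h0 hM fun i => by
    obtain ⟨i, rfl⟩ := e.surjective i
    fin_cases i
    exacts [Or.inl rfl, Or.inl h1, Or.inr h2, Or.inr h3, Or.inr h4, Or.inr h5]
  have z2 : lev N φ (φ (e 0)) (e 2) = 0 := if_neg (h2.trans_lt hM).ne
  have z3 : lev N φ (φ (e 0)) (e 3) = 0 := if_neg (h3.trans_lt hM).ne
  have z4 : lev N φ (φ (e 0)) (e 4) = 0 := if_neg (h4.trans_lt hM).ne
  have z5 : lev N φ (φ (e 0)) (e 5) = 0 := if_neg (h5.trans_lt hM).ne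
  have z0 : lev N φ (φ (e 0)) (e 0) = N (e 0) := if_pos rfl
  have z1 : lev N φ (φ (e 0)) (e 1) = N (e 1) := if_pos h1
  have key : ∀ τ : Fin 4 → Fin 6, Function.Injective τ → (∀ k, τ k ≠ 0) →
      (∀ k, lev N φ (φ (e 0)) (e (τ k)) = 0) → pol (cmb q (lev N φ (φ (e 0))))
        (fun a => (l (e (τ 0)) a : Ω)) (fun a => (l (e (τ 1)) a : Ω)) = 0 →
      ∃ σ : Fin 4 → ι, Function.Injective σ ∧
      N (e 0) * (ev (q (e 0)) (sv l σ) : ℚ) + N (e 1) * (ev (q (e 1)) (sv l σ) : ℚ) = 0 ∧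
      ∑ i, lev N φ M i * (ev (q i) (sv l σ) : ℚ) = 0 := fun τ a1 a2 a3 a4 => by
    have b : ∀ i j k : Fin 6, i ≠ j → i ≠ k → j ≠ k → bk (fun a => (l (e i) a : Ω))
        (fun a => (l (e j) a : Ω)) (fun a => (l (e k) a : Ω)) ≠ 0 := fun i j k c1 c2 c3 => by
      rw [bk_cast, Rat.cast_ne_zero]
      exact bk_ne hl (e.injective.ne c1) (e.injective.ne c2) (e.injective.ne c3)
    have a5 := two0 ((ev_at hq _ _).trans (a3 0)) ((ev_at hq _ _).trans (a3 1))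
      ((ev_at hq _ _).trans (a3 2)) ((ev_at hq _ _).trans (a3 3))
      (((ev_at hq _ (e 0)).trans z0).trans_ne (hN _)) a4
      (b _ _ _ (a1.ne (by decide)) (a1.ne (by decide)) (a1.ne (by decide)))
      (b _ _ _ (a1.ne (by decide)) (a1.ne (by decide)) (a1.ne (by decide)))
      (b _ _ _ (a1.ne (by decide)) (a2 _) (a2 _)) (b _ _ _ (a1.ne (by decide)) (a2 _) (a2 _))
    refine ⟨fun k => e (τ k), e.injective.comp a1, ?_, ?_⟩
    · have := a5 _ (by rw [t1, add_zero, add_zero])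
      rw [mt_cast, ev_cmb, ← e.sum_comp, Fin.sum_univ_six, z0, z1, z2, z3, z4, z5] at this
      simpa [sv] using this
    · have := a5 _ t2
      rwa [mt_cast, ev_cmb] at this
  rcases three0 ((ev_at hq _ _).trans z2) ((ev_at hq _ _).trans z3) ((ev_at hq _ _).trans z4) t1
    with h | h | h
  · exact key ![2, 3, 4, 5] (by decide) (by decide)
      (fun k => by fin_cases k <;> assumption) h
  · exact key ![2, 4, 3, 5] (by decide) (by decide)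
      (fun k => by fin_cases k <;> assumption) h
  · exact key ![3, 4, 2, 5] (by decide) (by decide)
      (fun k => by fin_cases k <;> assumption) h

theorem half (hc : Fintype.card ι = 6) (hl : GP l) (hq : Du l q) (hN : ∀ i, N i ≠ 0) (hI : Ind N)
    (hφ : φ ∈ ann (rel _ hN)) (h0 : dd (cmb q N) (cmb q N) (cmb q N) = 0) (e : Fin 6 ≃ ι)
    (h1 : φ (e 1) = φ (e 0)) (h2 : φ (e 2) < φ (e 0)) (h3 : φ (e 3) ≤ φ (e 2))
    (h4 : φ (e 4) ≤ φ (e 3)) (h5 : φ (e 5) = φ (e 4)) : Out l q N := by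
  obtain ⟨σ, a1, a2, a3⟩ := two1 hl hq hN hI hφ h0 e h1 h2 le_rfl h3 (h4.trans h3)
    (h5.le.trans (h4.trans h3))
  rw [← e.sum_comp, Fin.sum_univ_six] at a3
  simp only [lev, if_neg h2.ne', if_neg (h1 ▸ h2.ne' : φ (e 1) ≠ φ (e 2)), if_true, h5] at a3
  rcases h3.eq_or_lt with h3 | h3
  swap
  · simp only [if_neg h3.ne, if_neg (h4.trans_lt h3).ne, zero_mul, add_zero, zero_add] at a3
    exact (mul_ne_zero (hN _) (Rat.cast_ne_zero.2 (ev_sv_ne hc hl hq a1 _)) a3).elim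
  rcases h4.eq_or_lt with h4 | h4
  · refine Or.inl ⟨σ, a1, ?_⟩
    simp only [h4, h3, if_true] at a3
    rw [← e.sum_comp, Fin.sum_univ_six]
    linear_combination a2 + a3
  obtain ⟨σ', b1, b2, -⟩ := two1 hl hq hN hI (neg_mem hφ) h0 (Fin.revPerm.trans e)
    (M := -φ (e 3)) (neg_inj.2 h5.symm) (neg_lt_neg (h5.trans_lt h4)) le_rfl (neg_le_neg h3.le)
    (neg_le_neg (h3.le.trans (h2.le.trans h1.ge))) (neg_le_neg (h3.le.trans h2.le))
  simp only [if_pos h3, if_neg (h4.trans_eq h3).ne, zero_mul, add_zero, zero_add] at a3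
  refine Or.inr ⟨fun j => e (![0, 2, 5] j), fun j => e (![1, 3, 4] j), ?_, fun j => ?_⟩
  · have : Function.Injective (Sum.elim (![0, 2, 5] : Fin 3 → Fin 6) ![1, 3, 4]) := by decide
    convert e.injective.comp this using 1
    funext j
    rcases j with j | j <;> rfl
  · fin_cases j
    exacts [⟨σ, a1, a2⟩, ⟨σ, a1, a3⟩, ⟨σ', b1, b2⟩]

theorem three1 (hq : Du l q) (hN : ∀ i, N i ≠ 0) (hI : Ind N)
    (hφ : φ ∈ ann (rel _ hN)) (h0 : dd (cmb q N) (cmb q N) (cmb q N) = 0) {M M' : ℚ} (hM : M' < M)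
    (h : ∀ i, φ i = M ∨ φ i = M') {a b c : ι} (h1 : a ≠ b) (h2 : a ≠ c) (h3 : b ≠ c)
    (ha : φ a = M') (hb : φ b = M') (hc : φ c = M') : ∃ j k, j ≠ k ∧ φ j = M' ∧ φ k = M' ∧
      pol (cmb q (lev N φ M)) (fun a => (l j a : Ω)) (fun a => (l k a : Ω)) = 0 := by
  have z : ∀ i, φ i = M' → ev (cmb q (lev N φ M)) (fun a => (l i a : Ω)) = 0 := fun i hi =>
    (ev_at hq _ _).trans (if_neg (hi ▸ hM.ne))
  rcases three0 (z a ha) (z b hb) (z c hc) (top hN hI hφ q h0 hM fun i => (h i).imp_right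
    Eq.le).1 with t | t | t
  exacts [⟨a, b, h1, ha, hb, t⟩, ⟨a, c, h2, ha, hc, t⟩, ⟨b, c, h3, hb, hc, t⟩]

theorem core (hc : Fintype.card ι = 6) (hl : GP l) (hq : Du l q) (hN : ∀ i, N i ≠ 0) (hI : Ind N)
    (hP : ∀ φ ∈ ann (rel _ hN), ∀ i, ∃ j ≠ i, φ i ≤ φ j)
    (hφ : φ ∈ ann (rel _ hN)) (h0 : dd (cmb q N) (cmb q N) (cmb q N) = 0) {i0 i1 : ι}
    (hn : φ i0 < φ i1) : Out l q N := by
  let e0 := (Fintype.equivFinOfCardEq hc).symm
  let e : Fin 6 ≃ ι := (Tuple.sort (φ ∘ e0)).trans e0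
  have hm : Monotone (φ ∘ e) := Tuple.monotone_sort (φ ∘ e0)
  clear_value e
  have m : ∀ i j : Fin 6, i ≤ j → φ (e i) ≤ φ (e j) := fun i j h => hm h
  have h5 : φ (e 4) = φ (e 5) := by
    obtain ⟨j, h1, h2⟩ := hP φ hφ (e 5)
    obtain ⟨j, rfl⟩ := e.surjective j
    exact (m 4 5 (by decide)).antisymm (h2.trans (m j 4 (by
      have := e.injective.ne_iff.1 h1
      omega)))
  have h1 : φ (e 1) = φ (e 0) := by
    obtain ⟨j, h1, h2⟩ := hP _ (neg_mem hφ) (e 0)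
    obtain ⟨j, rfl⟩ := e.surjective j
    exact ((m 1 j (by
      have := e.injective.ne_iff.1 h1
      omega)).trans (neg_le_neg_iff.1 h2)).antisymm (m 0 1 (by decide))
  have h6 : φ (e 0) < φ (e 5) := by
    obtain ⟨i0, rfl⟩ := e.surjective i0
    obtain ⟨i1, rfl⟩ := e.surjective i1
    exact ((m 0 i0 (Fin.zero_le _)).trans_lt hn).trans_le (m i1 5 (Fin.le_last _))
  rcases (m 3 5 (by decide)).eq_or_lt with h3 | h3
  swap
  · exact half hc hl hq hN hI hφ h0 (Fin.revPerm.trans e) h5 h3 (m 2 3 (by decide))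
      (m 1 2 (by decide)) h1.symm
  rcases (m 0 2 (by decide)).eq_or_lt with h2 | h2
  swap
  · exact half hc hl hq hN hI (neg_mem hφ) h0 e (neg_inj.2 h1) (neg_lt_neg h2)
      (neg_le_neg (m 2 3 (by decide))) (neg_le_neg (m 3 4 (by decide))) (neg_inj.2 h5.symm)
  have h : ∀ i, φ i = φ (e 5) ∨ φ i = φ (e 0) := fun i => by
    obtain ⟨i, rfl⟩ := e.surjective i
    fin_cases i
    exacts [Or.inr rfl, Or.inr h1, Or.inr h2.symm, Or.inl h3, Or.inl h5, Or.inl rfl]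
  obtain ⟨j, k, a1, a2, a3, a4⟩ := three1 hq hN hI hφ h0 h6 h (a := e 0) (b := e 1) (c := e 2)
    (e.injective.ne (by decide)) (e.injective.ne (by decide)) (e.injective.ne (by decide))
    rfl h1 h2.symm
  obtain ⟨j', k', b1, b2, b3, b4⟩ := three1 hq hN hI (neg_mem hφ) h0 (neg_lt_neg h6)
    (fun i => (h i).symm.imp neg_inj.2 neg_inj.2) (a := e 3) (b := e 4) (c := e 5)
    (e.injective.ne (by decide)) (e.injective.ne (by decide)) (e.injective.ne (by decide))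
    (neg_inj.2 h3) (neg_inj.2 h5) rfl
  have b2' : φ j' = φ (e 5) := neg_inj.1 b2
  have b3' : φ k' = φ (e 5) := neg_inj.1 b3
  have c : ∀ {a b}, φ a = φ (e 0) → φ b = φ (e 5) → a ≠ b := fun ha hb hab =>
    h6.ne (ha.symm.trans (hab ▸ hb))
  refine Or.inl ⟨![j, k, j', k'], ?_, ?_⟩
  · have c1 := c a2 b2'
    have c2 := c a2 b3'
    have c3 := c a3 b2'
    have c4 := c a3 b3'
    intro u v huv
    fin_cases u <;> fin_cases v <;> simp_all
  have d1 : ev (cmb q (lev N φ (φ (e 5)))) (fun a => (sv l ![j, k, j', k'] a : Ω)) = 0 := by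
    simp only [sv, Matrix.cons_val]
    rw [← mt_cast, ev_mt', ev_mt, a4, ev_at hq, ev_at hq, lev, lev, if_neg (a2 ▸ h6.ne),
      if_neg (a3 ▸ h6.ne)]
    ring
  have d2 : ev (cmb q (lev N (-φ) (-φ (e 0)))) (fun a => (sv l ![j, k, j', k'] a : Ω)) = 0 := by
    simp only [sv, Matrix.cons_val]
    rw [← mt_cast, ev_mt, b4, ev_at hq, ev_at hq, lev, lev, if_neg (b2 ▸ (neg_lt_neg h6).ne),
      if_neg (b3 ▸ (neg_lt_neg h6).ne)]
    ring
  rw [ev_cmb] at d1 d2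
  refine Eq.trans ?_ ((congrArg₂ (· + ·) d1 d2).trans (add_zero 0))
  rw [← sum_add_distrib]
  refine sum_congr rfl fun i _ => ?_
  rcases h i with hi | hi <;> simp [lev, hi, h6.ne, h6.ne']

end Pool.Agent.Lib.MP_651af7_nt.Qp
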