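import Pool.Agent.Lib.MP_651af7_nt.Qp.Sc
import Pool.Agent.Lib.MP_651af7_nt.Qp.Fin

/-! One curve for all finite sets of primes. -/

namespace Pool.Agent.Lib.MP_651af7_nt.Qp

open Finset Filter

variable {l : Fin 6 → Fin 3 → ℚ} {q : Fin 6 → Fin 6 → ℚ}

/-- The conics of the family express every conic. -/
def Sp (l : Fin 6 → Fin 3 → ℚ) (q : Fin 6 → Fin 6 → ℚ) : Prop :=
  ∀ (Ω : Type) [Field Ω] [CharZero Ω] (x y : Fin 3 → Ω),
    ww x y = cmb q fun i => lf (l i) x * lf (l i) y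

theorem ev_lf {Ω : Type} [Field Ω] [CharZero Ω] (x y : Fin 3 → Ω) (m : Fin 3 → ℚ) :
    ev (ww x y) (fun a => (m a : Ω)) = lf m x * lf m y := by
  rw [ev_ww, lf3, lf3]

theorem exists_du (hQ : ∀ Q : QuadraticForm ℚ (Fin 3 → ℚ), (∀ i, Q (l i) = 0) → Q = 0) :
    ∃ q, Du l q ∧ Sp l q := by
  let V : Matrix (Fin 6) (Fin 6) ℚ := Matrix.of fun i =>
    ![l i 0 ^ 2, l i 1 ^ 2, l i 2 ^ 2, l i 0 * l i 1, l i 0 * l i 2, l i 1 * l i 2]
  have e : ∀ (Ω : Type) [Field Ω] [CharZero Ω] (w : Fin 6 → Ω) i,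
      lf (V i) w = ev w fun a => (l i a : Ω) := fun Ω _ _ w i => by
    refine (Fin.sum_univ_six _).trans ?_
    simp only [V, ev, Matrix.of_apply, Matrix.cons_val]
    push_cast
    ring
  have hV : V.det ≠ 0 := fun h => by
    obtain ⟨c, h1, h2⟩ := Matrix.exists_mulVec_eq_zero_iff.2 h
    let Q : QuadraticForm ℚ (Fin 3 → ℚ) := c 0 • QuadraticMap.proj 0 0 +
      c 1 • QuadraticMap.proj 1 1 + c 2 • QuadraticMap.proj 2 2 + c 3 • QuadraticMap.proj 0 1 +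
      c 4 • QuadraticMap.proj 0 2 + c 5 • QuadraticMap.proj 1 2
    have h3 : ∀ m, Q m = ev c m := fun m => by
      simp only [Q, ev, add_apply, smul_apply, QuadraticMap.proj_apply,
        smul_eq_mul, sq]
    have h4 := hQ Q fun i => by rw [h3]; exact (e ℚ c i).symm.trans (congrFun h2 i)
    exact h1 (ev_ext fun m => by rw [← h3, h4]; rfl)
  refine ⟨fun i p => V⁻¹ p i, fun i j => ?_, fun Ω _ _ x y => funext fun p => ?_⟩
  · have := congrFun (congrFun (Matrix.mul_nonsing_inv V (Ne.isUnit hV)) j) i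
    rw [Matrix.one_apply] at this
    exact ((e ℚ (fun p => V⁻¹ p i) j).symm.trans this).trans (if_congr eq_comm rfl rfl)
  · rw [cramer V hV (ww x y) p]
    simp only [e, ev_lf, cmb]

theorem out_smul {Ω : Type} [Field Ω] {N : Fin 6 → Ω} (c : Ω) (h : Out l q N) :
    Out l q fun i => c * N i := by
  rcases h with ⟨σ, h1, h2⟩ | ⟨f, g, h1, h2⟩
  · exact Or.inl ⟨σ, h1, by simp only [mul_assoc, ← mul_sum, h2, mul_zero]⟩
  · refine Or.inr ⟨f, g, h1, fun j => (h2 j).imp fun σ h => ⟨h.1, ?_⟩⟩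
    linear_combination c * h.2

/-- The Jacobian form. -/
noncomputable def jp (u v : Fin 3 → Fin 3 → ℚ) (c : Fin 3 → ℚ) : MvPolynomial (Fin 3) ℚ :=
  (Matrix.of fun j a => (∑ b, u j b • MvPolynomial.X b) * MvPolynomial.C (u j a) -
    MvPolynomial.C (c j) * (∑ b, v j b • MvPolynomial.X b) * MvPolynomial.C (v j a)).det

theorem jp_ev {Ω : Type} [Field Ω] [CharZero Ω] (u v : Fin 3 → Fin 3 → ℚ) (c : Fin 3 → ℚ)
    (x : Fin 3 → Ω) : MvPolynomial.aeval x (jp u v c) =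
      (Matrix.of fun j a => lf (u j) x * u j a - c j * lf (v j) x * v j a).det := by
  rw [jp, AlgHom.map_det]
  congr 1
  ext j a
  simp [lf, Rat.smul_def]

theorem exists_prod {I σ : Type} [Finite I] (P : I → MvPolynomial σ ℚ) :
    ∃ Θ : MvPolynomial σ ℚ, Θ ≠ 0 ∧ ∀ k, P k ≠ 0 → ∀ x : σ → ℂ,
      MvPolynomial.aeval x (P k) = 0 → MvPolynomial.aeval x Θ = 0 := by
  classical
  have := Fintype.ofFinite I
  refine ⟨∏ k ∈ univ.filter fun k => P k ≠ 0, P k,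
    prod_ne_zero_iff.2 fun k hk => (mem_filter.1 hk).2, fun k h1 x h2 => ?_⟩
  rw [map_prod]
  exact prod_eq_zero (mem_filter.2 ⟨mem_univ k, h1⟩) h2

theorem out_theta (hl : GP l) (hq : Du l q) (hs : Sp l q)
    (hQ : ∀ Q : QuadraticForm ℚ (Fin 3 → ℚ), (∀ i, Q (l i) = 0) → Q = 0) :
    ∃ Θ : MvPolynomial (Fin 3) ℚ, Θ ≠ 0 ∧ ∀ x y : Fin 3 → ℂ, y ≠ 0 →
      (Out l q fun i => lf (l i) x * lf (l i) y) →
        MvPolynomial.aeval x Θ = 0 ∨ MvPolynomial.aeval y Θ = 0 := by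
  classical
  let c : (Fin 3 → Fin 6) → (Fin 3 → Fin 6) → (Fin 3 → Fin 4 → Fin 6) → Fin 3 → ℚ :=
    fun f g σ j => -ev (q (g j)) (sv l (σ j)) / ev (q (f j)) (sv l (σ j))
  let P : (Fin 4 → Fin 6) ⊕ (Fin 3 → Fin 6) × (Fin 3 → Fin 6) × (Fin 3 → Fin 4 → Fin 6) →
      MvPolynomial (Fin 3) ℚ := Sum.elim (fun σ => ∑ a, sv l σ a • MvPolynomial.X a)
    fun k => jp (fun j => l (k.1 j)) (fun j => l (k.2.1 j)) (c k.1 k.2.1 k.2.2)
  obtain ⟨Θ, h0, h⟩ := exists_prod P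
  refine ⟨Θ, h0, fun x y hy ho => ?_⟩
  rcases ho with ⟨σ, h1, h2⟩ | ⟨f, g, h1, h2⟩
  · rw [← ev_cmb, ← hs, ev_lf] at h2
    have h3 : ∀ x : Fin 3 → ℂ, MvPolynomial.aeval x (P (.inl σ)) = lf (sv l σ) x := fun x => by
      simp [P, lf, Rat.smul_def]
    have h4 : P (.inl σ) ≠ 0 := fun e => ev_sv_ne (by simp) hl hq h1 0 (by
      have : sv l σ = 0 := funext fun a => by
        have := h3 (Pi.single a 1)
        rw [e, map_zero, lf, sum_eq_single a (fun j _ h => by simp [h]) (by simp)] at this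
        simpa using this.symm
      simp [this, ev])
    exact (mul_eq_zero.1 h2).imp (fun e => h _ h4 x ((h3 x).trans e))
      fun e => h _ h4 y ((h3 y).trans e)
  choose σ h3 h4 using h2
  have h5 := fun j => ev_sv_ne (by simp) hl hq (h3 j)
  refine Or.inl (h (.inr (f, g, σ)) (fun e => ?_) x ?_)
  · obtain ⟨z, hz⟩ := jac_of_conic hl hQ
      ((Fintype.bijective_iff_injective_and_card _).2 ⟨h1, by simp⟩) (c f g σ)
      fun j => div_ne_zero (neg_ne_zero.2 (h5 j _)) (h5 j _)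
    exact hz ((jp_ev _ _ _ z).symm.trans ((congrArg _ e).trans (map_zero _)))
  · refine (jp_ev _ _ _ x).trans (Matrix.exists_mulVec_eq_zero_iff.1 ⟨y, hy, funext fun j => ?_⟩)
    have h6 : ((ev (q (f j)) (sv l (σ j)) : ℚ) : ℂ) ≠ 0 := Rat.cast_ne_zero.2 (h5 j _)
    have h7 := h4 j
    simp only [Matrix.mulVec, dotProduct, Matrix.of_apply, Pi.zero_apply, c, Fin.sum_univ_three]
    simp only [lf3 _ y] at h7
    push_cast
    field_simp
    linear_combination h7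

theorem fin_main (hl : GP l) (hq : Du l q) (hs : Sp l q) (S : Finset ℕ) :
    {x : Fin 3 → ℂ | ∃ (y : Fin 3 → ℂ) (ν : Fin 6 → ℚ), (∀ i, lf (l i) x * lf (l i) y = ν i) ∧
      lf (l 0) x = 1 ∧ lf (l 0) y = 1 ∧ (∀ i, SU S (ν i)) ∧
        ¬ Out l q fun i => lf (l i) x * lf (l i) y}.Finite := by
  classical
  by_contra hcon
  generalize hX : {x : Fin 3 → ℂ | ∃ (y : Fin 3 → ℂ) (ν : Fin 6 → ℚ),
    (∀ i, lf (l i) x * lf (l i) y = ν i) ∧ lf (l 0) x = 1 ∧ lf (l 0) y = 1 ∧ (∀ i, SU S (ν i)) ∧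
      ¬ Out l q fun i => lf (l i) x * lf (l i) y} = X at hcon
  have := Set.Infinite.to_subtype hcon
  let U := hyperfilter X
  choose y0 ν a1 a2 a3 a4 a5 using fun t : X => Set.mem_ofPred.1 (hX.ge t.2)
  let x : Fin 3 → Om U := fun a => gm U fun t => t.1 a
  let y : Fin 3 → Om U := fun a => gm U fun t => y0 t a
  have e : ∀ m, lf m x * lf m y = gm U fun t => lf m t.1 * lf m (y0 t) := fun m => by
    rw [gm_lf, gm_lf, ← map_mul]
    rfl
  have hu : ∀ i, GU U S (lf (l i) x * lf (l i) y / 1) := fun i =>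
    ⟨fun t => ν t i, fun t => a4 t i, by simp only [div_one, e, a1]⟩
  have hN : ∀ i, lf (l i) x * lf (l i) y ≠ 0 := fun i h => by
    rw [e, ← map_zero (gm U), gm_eq] at h
    obtain ⟨t, ht⟩ := h.exists
    exact (a4 t i).1 (Rat.cast_eq_zero.1 ((a1 t i).symm.trans ht))
  obtain ⟨h1, h2⟩ := ind_tors U S one_ne_zero hu
  have e2 : ∀ i (c : ℚ), lf (l i) x * lf (l i) y * c =
      gm U fun t => lf (l i) t.1 * lf (l i) (y0 t) * c := fun i c => by
    rw [e, gm_rat, ← map_mul]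
    rfl
  by_cases hn : ∃ φ ∈ ann (rel _ hN), ∃ i j, φ i < φ j
  · obtain ⟨φ, hφ, i, j, hn⟩ := hn
    rcases core (by simp) hl hq hN h1 (max_twice (n := 2) (by simp) hl hN h1) hφ
      (by rw [← hs]; exact dd_ww x y) hn with ⟨σ, b1, b2⟩ | ⟨f, g, b1, b2⟩
    · simp only [e2] at b2
      rw [← map_sum, ← map_zero (gm U), gm_eq] at b2
      obtain ⟨t, ht⟩ := b2.exists
      exact a5 t (Or.inl ⟨σ, b1, by simpa using ht⟩)
    · choose σ b2 b3 using b2
      obtain ⟨t, ht⟩ := (eventually_all.2 fun j => by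
        have := b3 j
        rw [e2, e2, ← map_add, ← map_zero (gm U), gm_eq] at this
        exact this).exists
      exact a5 t (Or.inr ⟨f, g, b1, fun j => ⟨σ j, b2 j, ht j⟩⟩)
  push Not at hn
  have h0 : lf (l 0) x * lf (l 0) y = 1 := by
    rw [e, ← map_one (gm U)]
    exact congrArg _ (funext fun t => by rw [a2, a3, mul_one]; rfl)
  have h3 : ∀ i, ∃ c : ℚ, lf (l i) x * lf (l i) y = c := fun i => by
    obtain ⟨m, hm, -, h3⟩ := dual_sat (rel _ hN) (Pi.single i 1 - Pi.single 0 1)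
      fun φ hφ => by rw [sum_sub, (hn φ hφ i 0).antisymm (hn φ hφ 0 i), sub_self]
    rw [mon_nsmul] at h3
    have := h2 _ m (by simp) hm h3
    rwa [mon_sub hN, h0, div_one] at this
  choose c hc using h3
  have h4 : ∀ m, ∃ r : ℚ, ∀ᶠ t : X in U, lf m t.1 * lf m (y0 t) = r := fun m =>
    ⟨∑ i, c i * ev (q i) m, by
      rw [← gm_eq, ← gm_rat, ← e, ← ev_lf, hs, ev_cmb]
      simp only [hc]
      push_cast
      rfl⟩
  have h5 : ∀ a, ∃ z, ∀ᶠ t : X in U, t.1 a = z := fun a => by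
    obtain ⟨p, hp⟩ := h4 (Pi.single a 1)
    obtain ⟨r, hr⟩ := h4 (Pi.single a 1 + l 0)
    have h6 : ∀ w : Fin 3 → ℂ, lf (Pi.single a 1 + l 0) w = w a + lf (l 0) w := fun w => by
      rw [← lf_single a w]
      simp only [lf, Pi.add_apply, Rat.cast_add, add_mul, sum_add_distrib]
    let G : Polynomial ℂ := Polynomial.X ^ 2 + Polynomial.C (1 + p - r : ℂ) * Polynomial.X +
      Polynomial.C (p : ℂ)
    have hG : G ≠ 0 := Polynomial.Monic.ne_zero (by simp only [G]; monicity!)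
    have h7 : ∀ᶠ t : X in U, ∃ z ∈ (G.roots.toFinset : Set ℂ), t.1 a = z := by
      filter_upwards [hp, hr] with t h7 h8
      rw [lf_single, lf_single] at h7
      rw [h6, h6, a2, a3] at h8
      refine ⟨_, ?_, rfl⟩
      rw [mem_coe, Multiset.mem_toFinset, Polynomial.mem_roots hG, Polynomial.IsRoot]
      simp only [G, Polynomial.eval_add, Polynomial.eval_pow, Polynomial.eval_X,
        Polynomial.eval_mul, Polynomial.eval_C]
      linear_combination t.1 a * h8 - (t.1 a + 1) * h7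
    obtain ⟨z, -, hz⟩ := (Ultrafilter.eventually_exists_mem_iff (finite_toSet _)).1 h7
    exact ⟨z, hz⟩
  choose z hz using h5
  refine Set.Finite.notMem_hyperfilter ?_ (eventually_all.2 hz)
  exact Set.Subsingleton.finite fun t ht t' ht' =>
    Subtype.ext (funext fun a => (ht a).trans (ht' a).symm)

theorem sfree (hl : GP l)
    (hQ : ∀ Q : QuadraticForm ℚ (Fin 3 → ℚ), (∀ i, Q (l i) = 0) → Q = 0) :
    ∃ (d : ℕ) (Θ : MvPolynomial (Fin 3) ℚ), Θ ≠ 0 ∧ Θ.IsHomogeneous d ∧ ∀ S : Finset ℕ,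
      ∃ F : Finset (Fin 3 → ℂ), ∀ (K : Type) [Field K] [NumberField K],
        Module.finrank ℚ K = 2 → ∀ x : Fin 3 → K, (∀ i, lf (l i) x ≠ 0) →
        (∀ i j (p : ℕ), p.Prime → p ∉ S → padicValRat p (Algebra.norm ℚ (lf (l i) x)) =
          padicValRat p (Algebra.norm ℚ (lf (l j) x))) → MvPolynomial.aeval x Θ ≠ 0 →
        ∀ σ : K →+* ℂ, ∃ z ∈ F, ∃ r : ℂ, ∀ a, σ (x a) = r * z a := by
  classical
  obtain ⟨q, hq, hs⟩ := exists_du hQ
  obtain ⟨Θ, h1, h2⟩ := out_theta hl hq hs hQ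
  obtain ⟨d, P, h3, h4, h5⟩ := exists_homog h1
  refine ⟨d, P, h3, h4, fun S => ⟨(fin_main hl hq hs S).toFinset,
    fun K _ _ hK x hx hv hP σ0 => ?_⟩⟩
  let σ : K →ₐ[ℚ] ℂ := σ0.toRatAlgHom
  have hcard : Fintype.card (K →ₐ[ℚ] ℂ) = 2 := by rw [AlgHom.card, hK]
  obtain ⟨σ', hne⟩ := Fintype.exists_ne_of_one_lt_card (by omega) σ
  have huniv : (univ : Finset (K →ₐ[ℚ] ℂ)) = {σ, σ'} :=
    (eq_univ_of_card _ (by rw [card_pair hne.symm, hcard])).symm
  have e : ∀ (φ : K →ₐ[ℚ] ℂ) (t : K) m, lf m (fun a => φ (t * x a)) = φ (t * lf m x) :=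
    fun φ t m => by
      simp only [lf, mul_sum, map_sum, map_mul, map_ratCast]
      exact sum_congr rfl fun a _ => by ring
  have hn : ∀ i, Algebra.norm ℚ (lf (l i) x) ≠ 0 := fun i => Algebra.norm_ne_zero_iff.2 (hx i)
  have e2 : ∀ t : K, σ t * σ' t = (Algebra.norm ℚ t : ℚ) := fun t => by
    have := Algebra.norm_eq_prod_embeddings ℚ ℂ t
    rw [huniv, prod_pair hne.symm, eq_ratCast] at this
    exact this.symm
  refine ⟨fun a => σ ((lf (l 0) x)⁻¹ * x a), (Set.Finite.mem_toFinset _).2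
    ⟨fun a => σ' ((lf (l 0) x)⁻¹ * x a), fun i => Algebra.norm ℚ (lf (l i) x) /
      Algebra.norm ℚ (lf (l 0) x), fun i => ?_, ?_, ?_, fun i => ?_, fun ho => ?_⟩,
      σ (lf (l 0) x), fun a => ?_⟩
  · rw [e, e, e2, map_mul, Algebra.norm_inv, inv_mul_eq_div]
  · rw [e, inv_mul_cancel₀ (hx 0), map_one]
  · rw [e, inv_mul_cancel₀ (hx 0), map_one]
  · refine ⟨div_ne_zero (hn i) (hn 0), fun p hp hS => ?_⟩
    have := Fact.mk hp
    rw [padicValRat.div (hn i) (hn 0), hv i 0 p hp hS, sub_self]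
  · refine hP (h5 K x fun r hr => ?_)
    have h6 := out_smul (σ (r * lf (l 0) x) * σ' (r * lf (l 0) x)) ho
    have h7 := h2 (fun a => σ (r * x a)) (fun a => σ' (r * x a)) (fun h0 => ?_) (by
      convert h6 using 2 with i
      rw [e, e, e, e, mul_mul_mul_comm, ← map_mul, ← map_mul, mul_assoc,
        mul_inv_cancel_left₀ (hx 0)])
    · rw [← MvPolynomial.comp_aeval_apply, ← MvPolynomial.comp_aeval_apply] at h7
      exact h7.elim (map_eq_zero σ).1 (map_eq_zero σ').1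
    · have := e σ' r (l 0)
      rw [h0, lf, sum_eq_zero fun a _ => by simp, eq_comm, map_eq_zero] at this
      exact mul_ne_zero (Rat.cast_ne_zero.2 hr) (hx 0) this
  · rw [← map_mul, mul_inv_cancel_left₀ (hx 0)]
    rfl

end Pool.Agent.Lib.MP_651af7_nt.Qp
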