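import Pool.Agent.Lib.MP_651af7_nt.Qp.Core

/-! Six lines paired at the vertices of a triangle. -/

namespace Pool.Agent.Lib.MP_651af7_nt.Qp

open Finset

variable {Ω : Type} [Field Ω] [CharZero Ω]

theorem cross_zero {α β γ : Fin 3 → ℚ} (h : ∀ j, α j * β j ≠ γ j ^ 2)
    (hd : ∀ a b c : ℚ, (α 0 * b + γ 0 * c) * (α 1 * c + γ 1 * a) * (α 2 * a + γ 2 * b) +
      (γ 0 * b + β 0 * c) * (γ 1 * c + β 1 * a) * (γ 2 * a + β 2 * b) = 0) :
    (γ 0 = 0 ∧ γ 1 = 0 ∧ γ 2 = 0) ∧ α 0 * α 1 * α 2 + β 0 * β 1 * β 2 = 0 := by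
  have k : ∀ j, ∀ u v : ℚ, α j * u + γ j * v = 0 → γ j * u + β j * v = 0 → u = 0 ∧ v = 0 := by
    intro j u v h1 h2
    have h3 := sub_ne_zero.2 (h j)
    exact ⟨(mul_eq_zero.1 (by linear_combination β j * h1 - γ j * h2 :
      (α j * β j - γ j ^ 2) * u = 0)).resolve_left h3, (mul_eq_zero.1
      (by linear_combination α j * h2 - γ j * h1 : (α j * β j - γ j ^ 2) * v = 0)).resolve_left h3⟩
  obtain ⟨a1, a2⟩ := k 0 (γ 1 * α 2) (β 1 * γ 2)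
    (by linear_combination (hd 1 1 0 - hd 1 (-1) 0) / 2 - (hd 1 1 0 + hd 1 (-1) 0) * 0 -
      (hd 1 1 0 + hd (-1) 1 0) * 0 + ((hd 1 1 0 + hd (-1) 1 0) - (hd 1 1 0 - hd 1 (-1) 0)) / 2)
    (by linear_combination (hd 1 0 1 + hd (-1) 0 1) / 2)
  obtain ⟨b1, b2⟩ := k 1 (γ 2 * α 0) (β 2 * γ 0)
    (by linear_combination (hd 0 1 1 + hd 0 (-1) 1) / 2)
    (by linear_combination (hd 1 1 0 + hd 1 (-1) 0) / 2)
  obtain ⟨c1, c2⟩ := k 2 (γ 0 * α 1) (β 0 * γ 1)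
    (by linear_combination (hd 1 0 1 + hd 1 0 (-1)) / 2)
    (by linear_combination (hd 0 1 1 + hd 0 1 (-1)) / 2)
  have e : α 0 * α 1 * α 2 + β 0 * β 1 * β 2 + 2 * (γ 0 * γ 1 * γ 2) = 0 := by
    linear_combination hd 1 1 1 - hd 1 1 0 - hd 1 0 1 - hd 0 1 1
  have h0 := h 0
  have h1 := h 1
  have h2 := h 2
  have g0 : γ 0 = 0 := by
    by_contra g0
    have e1 : β 2 = 0 := by simpa [g0] using b2
    have e2 : α 1 = 0 := by simpa [g0] using c1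
    have g1 : γ 1 ≠ 0 := fun g => h1 (by simp [e2, g])
    have g2 : γ 2 ≠ 0 := fun g => h2 (by simp [e1, g])
    simp [e1, e2, g0, g1, g2] at e
  have g1 : γ 1 = 0 := by
    by_contra g1
    have e1 : β 0 = 0 := by simpa [g1] using c2
    exact h0 (by simp [e1, g0])
  have g2 : γ 2 = 0 := by
    by_contra g2
    have e1 : α 0 = 0 := by simpa [g2] using b1
    exact h0 (by simp [e1, g0])
  exact ⟨⟨g0, g1, g2⟩, by simpa [g0] using e⟩

omit [CharZero Ω] in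
theorem lf3 (r : Fin 3 → ℚ) (X : Fin 3 → Ω) : lf r X = r 0 * X 0 + r 1 * X 1 + r 2 * X 2 :=
  Fin.sum_univ_three _

theorem tri_rel {u v : Fin 3 → Fin 3 → ℚ} {c : Fin 3 → ℚ} (hu : ∀ j, u j j = 0)
    (hv : ∀ j, v j j = 0) (hc : ∀ j, c j ≠ 0)
    (hm : ∀ j, u j (j + 1) * v j (j + 2) ≠ u j (j + 2) * v j (j + 1))
    (hd : ∀ z : Fin 3 → ℚ, (Matrix.of fun j a => (∑ b, u j b * z b) * u j a -
      c j * (∑ b, v j b * z b) * v j a).det = 0) {X Y : Fin 3 → Ω}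
    (h : ∀ j, lf (u j) X * lf (u j) Y = c j * (lf (v j) X * lf (v j) Y)) :
    ∀ k, ∃ κ : ℚ, κ ≠ 0 ∧ X k * Y k = κ * (X 0 * Y 0) := by
  let α : Fin 3 → ℚ := fun j => u j (j + 1) ^ 2 - c j * v j (j + 1) ^ 2
  let β : Fin 3 → ℚ := fun j => u j (j + 2) ^ 2 - c j * v j (j + 2) ^ 2
  let γ : Fin 3 → ℚ := fun j => u j (j + 1) * u j (j + 2) - c j * v j (j + 1) * v j (j + 2)
  have h1 : ∀ j, α j * β j ≠ γ j ^ 2 := fun j e =>
    mul_ne_zero (hc j) (pow_ne_zero 2 (sub_ne_zero.2 (hm j))) (by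
      simp only [α, β, γ] at e
      linear_combination -e)
  obtain ⟨⟨g0, g1, g2⟩, -⟩ := cross_zero h1 fun a b d => by
    have := hd ![a, b, d]
    simp only [Matrix.det_fin_three, Matrix.of_apply, Fin.sum_univ_three, hu, hv,
      Matrix.cons_val] at this
    simp only [α, β, γ, Fin.reduceAdd]
    linear_combination this
  have a1 : α 1 ≠ 0 := fun e => h1 1 (by simp [e, g1])
  have b1 : β 1 ≠ 0 := fun e => h1 1 (by simp [e, g1])
  have a2 : α 2 ≠ 0 := fun e => h1 2 (by simp [e, g2])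
  have b2 : β 2 ≠ 0 := fun e => h1 2 (by simp [e, g2])
  have e1 : (α 1 : Ω) * (X 2 * Y 2) + β 1 * (X 0 * Y 0) = 0 := by
    have e := h 1
    have g := congrArg (Rat.cast : ℚ → Ω) g1
    simp only [lf3, hu, hv, α, β, γ, Fin.reduceAdd] at e g ⊢
    push_cast at e g ⊢
    linear_combination e - (X 0 * Y 2 + X 2 * Y 0) * g
  have e2 : (α 2 : Ω) * (X 0 * Y 0) + β 2 * (X 1 * Y 1) = 0 := by
    have e := h 2
    have g := congrArg (Rat.cast : ℚ → Ω) g2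
    simp only [lf3, hu, hv, α, β, γ, Fin.reduceAdd] at e g ⊢
    push_cast at e g ⊢
    linear_combination e - (X 0 * Y 1 + X 1 * Y 0) * g
  have a1' : (α 1 : Ω) ≠ 0 := Rat.cast_ne_zero.2 a1
  have b2' : (β 2 : Ω) ≠ 0 := Rat.cast_ne_zero.2 b2
  intro k
  fin_cases k
  · exact ⟨1, one_ne_zero, by simp⟩
  · refine ⟨-α 2 / β 2, div_ne_zero (neg_ne_zero.2 a2) b2, ?_⟩
    push_cast
    field_simp
    linear_combination e2
  · refine ⟨-β 1 / α 1, div_ne_zero (neg_ne_zero.2 b1) a1, ?_⟩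
    push_cast
    field_simp
    linear_combination e1

variable {Γ : Type} [LinearOrderedCommGroupWithZero Γ] {ι : Type} [Fintype ι]

theorem val_rat (w : Valuation Ω Γ) (hw : ∀ c : ℚ, w c ≤ 1) {c : ℚ} (hc : c ≠ 0) : w c = 1 := by
  refine (hw c).antisymm ?_
  have := val_mul_le w hw c⁻¹ c
  rwa [← Rat.cast_mul, inv_mul_cancel₀ hc, Rat.cast_one, map_one] at this

omit [CharZero Ω] in
theorem lf_two {r : Fin 3 → ℚ} {j k m : Fin 3} (h1 : j ≠ k) (h2 : j ≠ m) (h3 : k ≠ m)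
    (h : r j = 0) (X : Fin 3 → Ω) : lf r X = r k * X k + r m * X m := by
  have : ∀ j k m : Fin 3, j ≠ k → j ≠ m → k ≠ m → (univ : Finset (Fin 3)) = {j, k, m} := by decide
  rw [lf, this j k m h1 h2 h3, sum_insert (by simp [h1, h2]), sum_pair h3, h]
  simp

theorem tri_val {l : ι → Fin 3 → ℚ} (hc : 6 ≤ Fintype.card ι) (hl : GP l) {f : Fin 3 → ι}
    (hf : ∀ j, l (f j) j = 0) {X Y : Fin 3 → Ω}
    (hk : ∀ k, ∃ κ : ℚ, κ ≠ 0 ∧ X k * Y k = κ * (X 0 * Y 0)) (w : Valuation Ω Γ)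
    (hw : ∀ c : ℚ, w c ≤ 1) {g : Γ} (hg : g ≠ 0) (h : ∀ i, w (lf (l i) X * lf (l i) Y) = g) :
    w (X 0 * Y 0) = g := by
  obtain ⟨j0, -, h1, h2⟩ := exists_good hl w hw X Y univ (by rw [card_univ]; omega)
  have key : ∀ X Y : Fin 3 → Ω, (∀ a, w (X a) ≤ w (lf (l j0) X)) →
      (∀ a, w (Y a) ≤ w (lf (l j0) Y)) → (∀ i, w (lf (l i) X * lf (l i) Y) = g) →
      ∀ j, ∃ k ≠ j, w (X k) = w (lf (l j0) X) := by
    intro X Y h1 h2 h j
    by_contra hcon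
    push Not at hcon
    have e0 := h j0
    rw [map_mul] at e0
    have h3 : w (lf (l (f j)) X) < w (lf (l j0) X) := by
      refine w.map_sum_lt (left_ne_zero_of_mul (e0 ▸ hg)) fun a _ => ?_
      by_cases ha : a = j
      · rw [ha, hf, Rat.cast_zero, zero_mul, map_zero]
        exact zero_lt_iff.2 (left_ne_zero_of_mul (e0 ▸ hg))
      · exact (val_mul_le w hw _ _).trans_lt ((h1 a).lt_of_ne (hcon a ha))
    have h4 := (mul_le_mul_right (val_lf w hw (l (f j)) h2) _).trans_lt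
      (mul_lt_mul_of_pos_right h3 (zero_lt_iff.2 (right_ne_zero_of_mul (e0 ▸ hg))))
    rw [← map_mul, h, e0] at h4
    exact h4.false
  have h3 := key X Y h1 h2 h
  have h4 := key Y X h2 h1 fun i => by rw [mul_comm, h]
  have h5 : ∀ P Q : Fin 3 → Prop, (∀ j, ∃ k ≠ j, P k) → (∀ j, ∃ k ≠ j, Q k) → ∃ k, P k ∧ Q k := by
    intro P Q
    simp only [Fin.forall_fin_succ, Fin.exists_fin_succ]
    simp
    tauto
  obtain ⟨k, h6, h7⟩ := h5 _ _ h3 h4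
  obtain ⟨κ, h8, h9⟩ := hk k
  have := congrArg w h9
  rw [map_mul, h6, h7, ← map_mul, h, map_mul, val_rat w hw h8, one_mul] at this
  exact this.symm

theorem two_val (w : Valuation Ω Γ) (hw : ∀ c : ℚ, w c ≤ 1) {s s' : ℚ} (hs : s ≠ 0) (hs' : s' ≠ 0)
    {X X' Y Y' : Ω} {μ : Γ} (h0 : μ ≠ 0) (h1 : w X * w Y = μ) (h2 : w X' * w Y' = μ)
    (h : w X' < w X) : w ((s * X + s' * X') * (s * Y + s' * Y')) = w X * w Y' ∧ μ < w X * w Y' := by
  have hY' : w Y' ≠ 0 := right_ne_zero_of_mul (h2 ▸ h0)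
  have hX : w X ≠ 0 := left_ne_zero_of_mul (h1 ▸ h0)
  have h3 : μ < w X * w Y' := h2 ▸ mul_lt_mul_of_pos_right h (zero_lt_iff.2 hY')
  have h4 : w Y < w Y' := lt_of_mul_lt_mul_left' (a := w X) (h1 ▸ h3)
  have e : ∀ (c : ℚ) (z : Ω), c ≠ 0 → w (c * z) = w z := fun c z hc => by
    rw [map_mul, val_rat w hw hc, one_mul]
  refine ⟨?_, h3⟩
  rw [map_mul, w.map_add_eq_of_lt_left (by rwa [e _ _ hs, e _ _ hs']),
    w.map_add_eq_of_lt_right (by rwa [e _ _ hs, e _ _ hs']), e _ _ hs, e _ _ hs']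

theorem tri_pos {u : Fin 3 → Fin 3 → ℚ} (hu : ∀ j, u j j = 0) (hu' : ∀ j k, j ≠ k → u j k ≠ 0)
    {X Y : Fin 3 → Ω} (w : Valuation Ω Γ) (hw : ∀ c : ℚ, w c ≤ 1) {μ : Γ} (h0 : μ ≠ 0)
    (hk : ∀ k, w (X k) * w (Y k) = μ) {j k : Fin 3} (hjk : j ≠ k)
    (h1 : μ < w (lf (u j) X * lf (u j) Y))
    (h2 : ∀ m ≠ j, w (lf (u m) X * lf (u m) Y) < w (lf (u j) X * lf (u j) Y)) :
    μ < w (lf (u k) X * lf (u k) Y) := by
  have hE : ∀ a b d : Fin 3, a ≠ b → a ≠ d → b ≠ d → w (X d) < w (X b) →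
      w (lf (u a) X * lf (u a) Y) = w (X b) * w (Y d) ∧ μ < w (X b) * w (Y d) := by
    intro a b d e1 e2 e3 e4
    rw [lf_two e1 e2 e3 (hu a), lf_two e1 e2 e3 (hu a)]
    exact two_val w hw (hu' _ _ e1) (hu' _ _ e2) h0 (hk b) (hk d) e4
  have hY : ∀ b d, w (X b) = w (X d) → w (Y b) = w (Y d) := fun b d e =>
    mul_left_cancel₀ (left_ne_zero_of_mul ((hk d) ▸ h0)) (by rw [hk d, ← e, hk b])
  obtain ⟨m, e1, e2⟩ : ∃ m, j ≠ m ∧ k ≠ m := by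
    revert j k
    suffices ∀ j k : Fin 3, ∃ m, j ≠ m ∧ k ≠ m from fun {j k} _ _ _ => this j k
    decide
  rcases lt_trichotomy (w (X j)) (w (X m)) with h3 | h3 | h3
  · obtain ⟨h4, h5⟩ := hE k m j e2 hjk.symm e1.symm h3
    rwa [h4]
  · refine absurd (h2 m e1.symm) (not_lt.2 ?_)
    rcases lt_trichotomy (w (X k)) (w (X m)) with h4 | h4 | h4
    · rw [(hE j m k e1 hjk e2.symm h4).1, (hE m j k e1.symm e2.symm hjk (h3 ▸ h4)).1, h3]
    · refine absurd h1 (not_lt.2 ?_)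
      rw [lf_two hjk e1 e2 (hu j), lf_two hjk e1 e2 (hu j), map_mul, ← hk k]
      exact mul_le_mul' (w.map_add_le (val_mul_le w hw _ _) ((val_mul_le w hw _ _).trans h4.ge))
        (w.map_add_le (val_mul_le w hw _ _) ((val_mul_le w hw _ _).trans (hY _ _ h4).ge))
    · rw [(hE j k m hjk e1 e2 h4).1, (hE m k j e2.symm e1.symm hjk.symm (h3 ▸ h4)).1, hY _ _ h3]
  · obtain ⟨h4, h5⟩ := hE k j m hjk.symm e2 e1 h3
    rwa [h4]

end Pool.Agent.Lib.MP_651af7_nt.Qp
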