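import Pool.Agent.Lib.MP_651af7_nt.Qp.Key
import Pool.Agent.Lib.MP_651af7_nt.Qp.Core

/-! The generic point of a family of pairs. -/

namespace Pool.Agent.Lib.MP_651af7_nt.Qp

open Finset Filter

variable {τ : Type} (U : Ultrafilter τ)

/-- The ultrapower of the complex numbers. -/
def Om : Type := Germ (U : Filter τ) ℂ

noncomputable instance : Field (Om U) := inferInstanceAs (Field (Germ (U : Filter τ) ℂ))

/-- The germ of a sequence. -/
noncomputable def gm : (τ → ℂ) →+* Om U := Germ.coeRingHom (U : Filter τ)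

theorem gm_eq {f g : τ → ℂ} : gm U f = gm U g ↔ ∀ᶠ t in U, f t = g t := Germ.coe_eq

instance : CharZero (Om U) :=
  charZero_of_injective_ringHom ((gm U).comp (Pi.constRingHom τ ℂ)).injective

theorem gm_rat (c : ℚ) : (c : Om U) = gm U fun _ => (c : ℂ) :=
  (map_ratCast ((gm U).comp (Pi.constRingHom τ ℂ)) c).symm

theorem gm_zpow (f : τ → ℂ) (hf : ∀ t, f t ≠ 0) (a : ℤ) : gm U f ^ a = gm U fun t => f t ^ a := by
  have h : ∀ m : ℕ, gm U (fun t => f t ^ m) = gm U f ^ m := fun m => map_pow (gm U) f m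
  obtain ⟨m, rfl | rfl⟩ := a.eq_nat_or_neg
  · simp only [zpow_natCast, h]
  · simp only [zpow_neg, zpow_natCast]
    refine (eq_inv_of_mul_eq_one_left ?_).symm
    rw [← h, ← map_mul, ← map_one (gm U)]
    exact congrArg _ (funext fun t => inv_mul_cancel₀ (pow_ne_zero _ (hf t)))

theorem su_mul {S : Finset ℕ} {u v : ℚ} (hu : SU S u) (hv : SU S v) : SU S (u * v) :=
  ⟨mul_ne_zero hu.1 hv.1, fun p h1 h2 => by
    have := Fact.mk h1
    rw [padicValRat.mul hu.1 hv.1, hu.2 p h1 h2, hv.2 p h1 h2, add_zero]⟩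

theorem su_zpow {S : Finset ℕ} {u : ℚ} (hu : SU S u) (a : ℤ) : SU S (u ^ a) :=
  ⟨zpow_ne_zero _ hu.1, fun p h1 h2 => by
    have := Fact.mk h1
    rw [padicValRat.zpow, hu.2 p h1 h2, mul_zero]⟩

theorem su_one (S : Finset ℕ) : SU S 1 := ⟨one_ne_zero, fun _ _ _ => padicValRat.one⟩

/-- The germ of a sequence of units. -/
def GU (S : Finset ℕ) (g : Om U) : Prop :=
  ∃ u : τ → ℚ, (∀ t, SU S (u t)) ∧ g = gm U fun t => (u t : ℂ)

theorem key1 (S : Finset ℕ) (T : Set (Om U)) (hT : ∀ g ∈ T, GU U S g)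
    (h : (1 : Om U) ∈ Submodule.span ℚ T) : ∃ g ∈ T, ∃ c : ℚ, g = c := by
  classical
  obtain ⟨b, h1, h2, h3⟩ := exists_linearIndependent ℚ T
  rw [← h2] at h
  obtain ⟨c, h4, h5⟩ := Submodule.mem_span_set.1 h
  have hi : LinearIndependent ℚ fun k : c.support => (k : Om U) :=
    LinearIndepOn.mono (s := b) (v := id) h3 h4
  rw [Finsupp.sum, ← sum_coe_sort] at h5
  choose u hu e using fun k : c.support => hT k (h1 (h4 k.2))
  rcases subsingleton_or_nontrivial c.support with h6 | h6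
  · rcases isEmpty_or_nonempty c.support with h7 | ⟨⟨k⟩⟩
    · simp at h5
    · rw [Fintype.sum_subsingleton _ k, Rat.smul_def] at h5
      exact ⟨k, h1 (h4 k.2), (c k)⁻¹, by rw [Rat.cast_inv]; exact eq_inv_of_mul_eq_one_right h5⟩
  have hs : ∀ w : c.support → ℚ, ∑ k, w k • (k : Om U) =
      gm U fun t => ((∑ k, w k * u k t : ℚ) : ℂ) := fun w => by
    have : (fun t => ((∑ k, w k * u k t : ℚ) : ℂ)) =
        ∑ k, (fun _ => (w k : ℂ)) * fun t => (u k t : ℂ) := by
      funext t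
      simp
    rw [this, map_sum]
    exact sum_congr rfl fun k _ => by rw [map_mul, ← gm_rat, ← e k, Rat.smul_def]
  obtain ⟨w, h7, h8⟩ := key0 S U (fun t k => u k t) (fun t k => hu k t) (fun k => c k)
    (fun k => Finsupp.mem_support_iff.1 k.2) (by
      rw [hs, ← map_one (gm U), gm_eq] at h5
      exact h5.mono fun t ht => by rw [Pi.one_apply] at ht; exact_mod_cast ht)
  refine (h7 (funext fun k => ?_)).elim
  have := Fintype.linearIndependent_iff.1 hi (fun k => (w k : ℚ)) (by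
    rw [hs, ← map_zero (gm U), gm_eq]
    exact h8.mono fun t ht => by rw [ht]; simp) k
  exact_mod_cast this

theorem tors1 (S : Finset ℕ) {g : Om U} (hg : GU U S g) {m : ℕ} (hm : 0 < m)
    {c : ℚ} (h : g ^ m = c) : ∃ d : ℚ, g = d := by
  obtain ⟨u, -, rfl⟩ := hg
  rw [← map_pow, gm_rat, gm_eq] at h
  have h1 : ∀ᶠ t in U, ∃ d ∈ ((Polynomial.nthRoots m c).toFinset : Set ℚ), u t = d :=
    h.mono fun t ht => ⟨u t, by
      rw [mem_coe, Multiset.mem_toFinset, Polynomial.mem_nthRoots hm]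
      rw [Pi.pow_apply] at ht
      exact_mod_cast ht, rfl⟩
  obtain ⟨d, -, hd⟩ := (Ultrafilter.eventually_exists_mem_iff (finite_toSet _)).1 h1
  exact ⟨d, by rw [gm_rat, gm_eq]; exact hd.mono fun t ht => by rw [ht]⟩

variable {ι : Type} [Fintype ι]

theorem gu_mon (S : Finset ℕ) {N : ι → Om U} {z : Om U}
    (hz : z ≠ 0) (h : ∀ i, GU U S (N i / z)) (a : ι → ℤ) (ha : ∑ i, a i = 0) :
    GU U S (mon N a) := by
  choose u hu e using h
  refine ⟨fun t => ∏ i, u i t ^ a i, fun t => prod_induction _ _ (fun _ _ => su_mul) (su_one S)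
    fun i _ => su_zpow (hu i t) _, ?_⟩
  have h1 : mon N a = ∏ i, (N i / z) ^ a i := by
    simp only [mon, div_zpow, prod_div_distrib]
    rw [zpow_sum hz, ha, zpow_zero, div_one]
  have h2 : (fun t => ((∏ i, u i t ^ a i : ℚ) : ℂ)) = ∏ i, fun t => (u i t : ℂ) ^ a i := by
    funext t
    simp
  rw [h1, h2, map_prod]
  exact prod_congr rfl fun i _ => by
    rw [e i]
    exact gm_zpow U _ (fun t => Rat.cast_ne_zero.2 (hu i t).1) _

theorem ind_tors (S : Finset ℕ) {N : ι → Om U} {z : Om U}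
    (hz : z ≠ 0) (h : ∀ i, GU U S (N i / z)) : Ind N ∧ Tors N := by
  refine ⟨fun T h1 h2 => ?_, fun a m h1 h2 ⟨c, h3⟩ => tors1 U S (gu_mon U S hz h a h1) h2 h3⟩
  obtain ⟨_, ⟨a, h3, rfl⟩, h4⟩ := key1 U S (mon N '' T) (by
    rintro _ ⟨a, h3, rfl⟩
    exact gu_mon U S hz h a (h1 a h3)) h2
  exact ⟨a, h3, h4⟩

theorem exists_gen {σ : Type} (x : τ → σ → ℂ)
    (h : ∀ Θ : MvPolynomial σ ℚ, Θ ≠ 0 → ∃ t, MvPolynomial.aeval (x t) Θ ≠ 0) :
    ∃ U : Ultrafilter τ, AlgebraicIndependent ℚ fun a => gm U fun t => x t a := by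
  let F : {Θ : MvPolynomial σ ℚ // Θ ≠ 0} → Filter τ :=
    fun Θ => principal {t | MvPolynomial.aeval (x t) Θ.1 ≠ 0}
  have : Nonempty {Θ : MvPolynomial σ ℚ // Θ ≠ 0} := ⟨⟨1, one_ne_zero⟩⟩
  have hF : (iInf F).NeBot := by
    refine iInf_neBot_of_directed' (fun a b => ⟨⟨a.1 * b.1, mul_ne_zero a.2 b.2⟩, ?_, ?_⟩)
      fun Θ => principal_neBot_iff.2 (h Θ.1 Θ.2)
    · exact principal_mono.2 fun t ht => left_ne_zero_of_mul (by simpa using ht)
    · exact principal_mono.2 fun t ht => right_ne_zero_of_mul (by simpa using ht)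
  refine ⟨Ultrafilter.of (iInf F), (injective_iff_map_eq_zero _).2 fun Θ h0 => ?_⟩
  by_contra h1
  have h2 : ∀ᶠ t in Ultrafilter.of (iInf F), MvPolynomial.aeval (x t) Θ ≠ 0 :=
    ((Ultrafilter.of_le _).trans (iInf_le F ⟨Θ, h1⟩)) (mem_principal_self _)
  have h3 : ∀ P : MvPolynomial σ ℚ, MvPolynomial.aeval (fun a => gm (Ultrafilter.of (iInf F))
      fun t => x t a) P = gm _ fun t => MvPolynomial.aeval (x t) P := fun P => by
    induction P using MvPolynomial.induction_on with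
    | C c => simp only [MvPolynomial.aeval_C, eq_ratCast, gm_rat]
    | add p q hp hq => simp only [map_add, hp, hq]; rfl
    | mul_X p a hp => simp only [map_mul, hp, MvPolynomial.aeval_X]; rfl
  rw [h3, ← map_zero (gm _), gm_eq] at h0
  obtain ⟨t, h4, h5⟩ := (h0.and h2).exists
  exact h5 h4

theorem gm_lf {n : ℕ} (l : Fin (n + 1) → ℚ) (x : τ → Fin (n + 1) → ℂ) :
    lf l (fun a => gm U fun t => x t a) = gm U fun t => lf l (x t) := by
  have : (fun t => lf l (x t)) = ∑ a, (fun _ => (l a : ℂ)) * fun t => x t a := by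
    funext t
    simp [lf]
  rw [this, map_sum, lf]
  exact sum_congr rfl fun a _ => by rw [map_mul, ← gm_rat]

end Pool.Agent.Lib.MP_651af7_nt.Qp
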