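import Pool.Agent.Lib.MP_651af7_nt.Qp.Lin

/-! Valuations and linear forms in general position. -/

namespace Pool.Agent.Lib.MP_651af7_nt.Qp

open Finset

variable {ι Ω : Type} [Fintype ι] [Field Ω] [CharZero Ω] {n : ℕ}

/-- The value of a rational linear form. -/
def lf (l : Fin (n + 1) → ℚ) (y : Fin (n + 1) → Ω) : Ω := ∑ a, (l a : Ω) * y a

/-- General position. -/
def GP (l : ι → Fin (n + 1) → ℚ) : Prop :=
  ∀ f : Fin (n + 1) → ι, Function.Injective f → (Matrix.of fun j => l (f j)).det ≠ 0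

theorem cramer (M : Matrix (Fin (n + 1)) (Fin (n + 1)) ℚ) (h : M.det ≠ 0)
    (y : Fin (n + 1) → Ω) (a : Fin (n + 1)) : y a = ∑ j, (M⁻¹ a j : Ω) * lf (M j) y := by
  have h1 : ∀ b, ∑ j, (M⁻¹ a j : Ω) * (M j b : Ω) = if a = b then 1 else 0 := fun b => by
    have := congrFun (congrFun (Matrix.nonsing_inv_mul M (Ne.isUnit h)) a) b
    rw [Matrix.mul_apply, Matrix.one_apply] at this
    have h2 := congrArg (Rat.cast : ℚ → Ω) this
    push_cast at h2
    rw [h2]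
    split_ifs <;> simp
  simp only [lf, mul_sum, ← mul_assoc]
  rw [sum_comm]
  simp only [← sum_mul, h1]
  simp

variable {Γ : Type} [LinearOrderedCommGroupWithZero Γ]

omit [CharZero Ω] in
theorem val_mul_le (w : Valuation Ω Γ) (hw : ∀ c : ℚ, w c ≤ 1) (c : ℚ) (z : Ω) :
    w (c * z) ≤ w z := by
  rw [map_mul]
  exact mul_le_of_le_one_left' (hw c)

omit [CharZero Ω] in
theorem val_lf (w : Valuation Ω Γ) (hw : ∀ c : ℚ, w c ≤ 1) (l : Fin (n + 1) → ℚ)
    {y : Fin (n + 1) → Ω} {g : Γ} (h : ∀ a, w (y a) ≤ g) : w (lf l y) ≤ g :=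
  w.map_sum_le fun a _ => (val_mul_le w hw _ _).trans (h a)

open Classical in
theorem bad_card {l : ι → Fin (n + 1) → ℚ} (hl : GP l) (w : Valuation Ω Γ)
    (hw : ∀ c : ℚ, w c ≤ 1) (y : Fin (n + 1) → Ω) :
    (univ.filter fun j => ¬ ∀ a, w (y a) ≤ w (lf (l j) y)).card ≤ n := by
  by_contra hc
  obtain ⟨t, h1, h2⟩ := exists_subset_card_eq (n := n + 1) (not_le.1 hc)
  let f : Fin (n + 1) → ι := fun j => (t.equivFinOfCardEq h2).symm j
  have hf : Function.Injective f := Subtype.val_injective.comp (Equiv.injective _)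
  obtain ⟨a0, ha0⟩ := Finite.exists_max fun a => w (y a)
  have h3 : ∀ j, w (lf (l (f j)) y) < w (y a0) := fun j => by
    have := (mem_filter.1 (h1 (Subtype.prop ((t.equivFinOfCardEq h2).symm j)))).2
    push Not at this
    obtain ⟨a, ha⟩ := this
    exact ha.trans_le (ha0 a)
  have h4 : w (∑ j, ((Matrix.of fun j => l (f j))⁻¹ a0 j : Ω) * lf (l (f j)) y) < w (y a0) :=
    w.map_sum_lt (zero_le.trans_lt (h3 0)).ne' fun j _ => (val_mul_le w hw _ _).trans_lt (h3 j)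
  exact h4.ne (congrArg w (cramer _ (hl f hf) y a0).symm)

theorem exists_good {l : ι → Fin (n + 1) → ℚ} (hl : GP l) (w : Valuation Ω Γ)
    (hw : ∀ c : ℚ, w c ≤ 1) (x y : Fin (n + 1) → Ω) (T : Finset ι) (hT : 2 * n < T.card) :
    ∃ j ∈ T, (∀ a, w (x a) ≤ w (lf (l j) x)) ∧ ∀ a, w (y a) ≤ w (lf (l j) y) := by
  classical
  by_contra hc
  have h1 := bad_card hl w hw x
  have h2 := bad_card hl w hw y
  have h3 := (card_le_card (s := T) fun j hj => ?_).trans ((card_union_le _ _).trans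
    (add_le_add h1 h2))
  · omega
  · rw [mem_union, mem_filter, mem_filter]
    by_contra h4
    simp only [mem_univ, true_and, not_or, not_not] at h4
    exact hc ⟨j, hj, h4⟩

/-- A monomial with integer exponents. -/
def mon (N : ι → Ω) (a : ι → ℤ) : Ω := ∏ i, N i ^ a i

omit [CharZero Ω] in
theorem mon_add {N : ι → Ω} (hN : ∀ i, N i ≠ 0) (a b : ι → ℤ) :
    mon N (a + b) = mon N a * mon N b := by
  simp [mon, zpow_add₀ (hN _), prod_mul_distrib]

omit [CharZero Ω] in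
theorem mon_neg (N : ι → Ω) (a : ι → ℤ) : mon N (-a) = (mon N a)⁻¹ := by simp [mon]

omit [CharZero Ω] in
theorem mon_zero (N : ι → Ω) : mon N 0 = 1 := by simp [mon]

omit [CharZero Ω] in
theorem mon_nsmul (N : ι → Ω) (m : ℕ) (a : ι → ℤ) : mon N (m • a) = mon N a ^ m := by
  simp only [mon, ← prod_pow, Pi.smul_apply, nsmul_eq_mul]
  exact prod_congr rfl fun i _ => by rw [mul_comm, zpow_mul, zpow_natCast]

omit [CharZero Ω] in
theorem mon_single [DecidableEq ι] (N : ι → Ω) (i : ι) : mon N (Pi.single i 1) = N i := by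
  rw [mon, prod_eq_single i (fun j _ h => by simp [h]) (by simp)]
  simp

omit [CharZero Ω] in
theorem mon_sub [DecidableEq ι] {N : ι → Ω} (hN : ∀ i, N i ≠ 0) (i j : ι) :
    mon N (Pi.single i 1 - Pi.single j 1) = N i / N j := by
  rw [sub_eq_add_neg, mon_add hN, mon_neg, mon_single, mon_single, div_eq_mul_inv]

/-- Monomials of degree zero that are not proportional are linearly independent. -/
def Ind (N : ι → Ω) : Prop :=
  ∀ T : Set (ι → ℤ), (∀ a ∈ T, ∑ i, a i = 0) → (1 : Ω) ∈ Submodule.span ℚ (mon N '' T) →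
    ∃ a ∈ T, ∃ c : ℚ, mon N a = c

theorem exists_val {N : ι → Ω} (hN : ∀ i, N i ≠ 0) (hI : Ind N) (φ : ι → ℚ)
    (hφ : ∀ a : ι → ℤ, ∑ i, a i = 0 → (∃ c : ℚ, mon N a = c) → ∑ i, φ i * a i = 0) :
    ∃ V : ValuationSubring Ω, (∀ c : ℚ, V.valuation c ≤ 1) ∧
      (∀ a : ι → ℤ, ∑ i, a i = 0 → ∑ i, φ i * a i ≤ 0 → V.valuation (mon N a) ≤ 1) ∧
      ∀ a : ι → ℤ, ∑ i, a i = 0 → ∑ i, φ i * a i < 0 → V.valuation (mon N a) < 1 := by
  let T0 : Set (ι → ℤ) := {a | ∑ i, a i = 0 ∧ ∑ i, φ i * a i ≤ 0}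
  let T1 : Set (ι → ℤ) := {a | ∑ i, a i = 0 ∧ ∑ i, φ i * a i < 0}
  have hs : ∀ a b : ι → ℤ, ∑ i, φ i * ((a + b) i : ℤ) = ∑ i, φ i * a i + ∑ i, φ i * b i := by
    intro a b
    simp [mul_add, sum_add_distrib]
  have hm : ∀ T T' T'' : Set (ι → ℤ), (∀ a ∈ T, ∀ b ∈ T', a + b ∈ T'') →
      ∀ y z, y ∈ Submodule.span ℚ (mon N '' T) → z ∈ Submodule.span ℚ (mon N '' T') →
        y * z ∈ Submodule.span ℚ (mon N '' T'') := by
    intro T T' T'' h y z hy hz
    have := Submodule.mul_mem_mul hy hz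
    rw [Submodule.span_mul_span] at this
    refine Submodule.span_mono ?_ this
    rintro _ ⟨_, ⟨a, ha, rfl⟩, _, ⟨b, hb, rfl⟩, rfl⟩
    exact ⟨a + b, h a ha b hb, mon_add hN a b⟩
  have h1 : (1 : Ω) ∈ Submodule.span ℚ (mon N '' T0) :=
    Submodule.subset_span ⟨0, ⟨by simp, by simp⟩, mon_zero N⟩
  let A : Subalgebra ℚ Ω := (Submodule.span ℚ (mon N '' T0)).toSubalgebra h1
    (hm _ _ _ fun a ha b hb => ⟨by simp [sum_add_distrib, ha.1, hb.1], by
      rw [hs]; exact add_nonpos ha.2 hb.2⟩)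
  let I : Ideal A.toSubring :=
    { carrier := {z | (z : Ω) ∈ Submodule.span ℚ (mon N '' T1)}
      add_mem' := fun h h' => (Submodule.span ℚ (mon N '' T1)).add_mem h h'
      zero_mem' := (Submodule.span ℚ (mon N '' T1)).zero_mem
      smul_mem' := fun c z hz => hm T0 T1 T1 (fun a ha b hb =>
        ⟨by simp [sum_add_distrib, ha.1, hb.1], by
          rw [hs]; exact add_neg_of_nonpos_of_neg ha.2 hb.2⟩) _ _ c.2 hz }
  have hI' : I ≠ ⊤ := fun h => by
    obtain ⟨a, ha, hc⟩ := hI T1 (fun a ha => ha.1) ((Ideal.eq_top_iff_one I).1 h)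
    exact ha.2.ne (hφ a ha.1 hc)
  obtain ⟨V, h2, h3⟩ := I.image_subset_nonunits_valuationSubring hI'
  refine ⟨V, fun c => (V.valuation_le_one_iff _).2 (h2 (A.algebraMap_mem c)), fun a ha h =>
    (V.valuation_le_one_iff _).2 (h2 (Submodule.subset_span ⟨a, ⟨ha, h⟩, rfl⟩)), fun a ha h => ?_⟩
  exact h3 ⟨⟨mon N a, Submodule.subset_span ⟨a, ⟨ha, h.le⟩, rfl⟩⟩,
    Submodule.subset_span ⟨a, ⟨ha, h⟩, rfl⟩, rfl⟩

end Pool.Agent.Lib.MP_651af7_nt.Qp
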